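import Pool.Agent.helper132_poly.F2

/-! Moments of correlation sums over the frequencies `a / X ^ k`. -/

namespace Pool.Agent.helper132_quad

open Finset Pool.Agent.helper132_sph Pool.Agent.helper132_poly

/-- mean value bound for the Vinogradov system. -/
def MVT (κ s : ℕ) (η C : ℝ) : Prop :=
  ∀ X : ℕ, 1 ≤ X → (Jm κ s X : ℝ) ≤ C * (X : ℝ) ^ (2 * (s : ℝ) - (κ : ℝ) * (κ + 1) / 2 + η)

lemma KX_ndvd (P : ℕ) (hP : 1 ≤ P) (z : ℤ) (h : ¬ (P : ℤ) ∣ z) : KX P ((z : ℝ) / P) = 0 := by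
  have hPR : (0 : ℝ) < P := by exact_mod_cast hP
  have hz : ec ((z : ℝ) / P) ≠ 1 := by
    intro h1
    unfold ec at h1
    rw [Complex.exp_eq_one_iff] at h1
    obtain ⟨n, hn⟩ := h1
    apply h
    have hpi : (Real.pi : ℂ) ≠ 0 := by exact_mod_cast Real.pi_ne_zero
    have h2 : ((2 * Real.pi * ((z : ℝ) / P) : ℝ) : ℂ) = ((2 * Real.pi * n : ℝ) : ℂ) := by
      have h3 : (((2 * Real.pi * ((z : ℝ) / P) : ℝ) : ℂ) - ((2 * Real.pi * n : ℝ) : ℂ)) * Complex.I = 0 := by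
        rw [sub_mul, hn]
        push_cast
        ring
      rcases mul_eq_zero.1 h3 with h4 | h4
      · exact sub_eq_zero.1 h4
      · exact absurd h4 Complex.I_ne_zero
    have h5 := Complex.ofReal_injective h2
    have h6 : (z : ℝ) / P = n := by
      have hpi2 : (2 * Real.pi) ≠ 0 := by
        have := Real.pi_pos
        positivity
      exact mul_left_cancel₀ hpi2 h5
    rw [div_eq_iff hPR.ne'] at h6
    refine ⟨n, ?_⟩
    have h7 : (z : ℝ) = ((P * n : ℤ) : ℝ) := by push_cast; linarith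
    exact_mod_cast h7
  have h2 : ∑ a ∈ range (2 * P), ec (a * ((z : ℝ) / P)) = 0 := by
    have h1 : ∀ a : ℕ, ec (a * ((z : ℝ) / P)) = ec ((z : ℝ) / P) ^ a := fun a => ec_nat_mul a _
    simp only [h1]
    have h3 := mul_geom_sum (ec ((z : ℝ) / P)) (2 * P)
    have h4 : ec ((z : ℝ) / P) ^ (2 * P) = 1 := by
      rw [← ec_nat_mul]
      have : ((2 * P : ℕ) : ℝ) * ((z : ℝ) / P) = ((2 * z : ℤ) : ℝ) := by
        push_cast; field_simp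
      rw [this, ec_int]
    rw [h4, sub_self] at h3
    rcases mul_eq_zero.1 h3 with h5 | h5
    · exact absurd (sub_eq_zero.1 h5) hz
    · exact h5
  unfold KX
  rw [h2]
  simp

/-- moments along an arithmetic progression of leading coefficients. -/
lemma moment (κ s : ℕ) (hκ : 1 ≤ κ) (hs : 1 ≤ s) (η CJ : ℝ) (hCJ : 1 ≤ CJ)
    (hJ : MVT κ s η CJ) (P : ℕ) (hP : 1 ≤ P) (g : ℤ) (hg : g ≠ 0) (Y H : ℕ) (hH : 1 ≤ H)
    (hY : |g| * ((s * H ^ κ : ℕ) : ℤ) ≤ Y * P)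
    (φ : ℤ → ℤ → ℝ) (hφ : ∀ a : ℤ, PP κ (((g : ℝ) / P) * a) (φ a)) :
    ∑ a ∈ Ioo (-(P : ℤ)) P, ‖∑ u ∈ Ico (0 : ℤ) H, ec (φ a u)‖ ^ (2 * s) ≤
      ((s : ℝ) ^ (κ - 1) * CJ * ((2 * Y + 1) * (4 * P))) * (H : ℝ) ^ (2 * (s : ℝ) - κ + η) := by
  classical
  have hPR : (0 : ℝ) < P := by exact_mod_cast hP
  have hPz : (0 : ℤ) < P := by exact_mod_cast hP
  have hHR : (0 : ℝ) < H := by exact_mod_cast hH
  have h1 := large_sieve κ s H P hκ hs hH hP ((g : ℝ) / P) φ hφ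
  obtain ⟨I, hI⟩ : ∃ I : Finset ℤ, I = Icc (-((s * H ^ κ : ℕ) : ℤ)) ((s * H ^ κ : ℕ) : ℤ) := ⟨_, rfl⟩
  rw [← hI] at h1
  have hK : ∑ y ∈ I, KX P ((g : ℝ) / P * y) ≤ (2 * Y + 1) * (4 * P) := by
    have e1 : ∀ y ∈ I, KX P ((g : ℝ) / P * y) ≤ if (P : ℤ) ∣ g * y then 4 * (P : ℝ) else 0 := by
      intro y _
      have e2 : (g : ℝ) / P * y = ((g * y : ℤ) : ℝ) / P := by push_cast; ring
      rw [e2]
      split_ifs with h
      · exact KX_le1 P hP _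
      · exact (KX_ndvd P hP _ h).le
    refine (Finset.sum_le_sum e1).trans ?_
    rw [← Finset.sum_filter, Finset.sum_const, nsmul_eq_mul]
    refine mul_le_mul_of_nonneg_right ?_ (by positivity)
    have h2 : (I.filter (fun y => (P : ℤ) ∣ g * y)).card ≤ (Icc (-(Y : ℤ)) Y).card := by
      refine Finset.card_le_card_of_injOn (fun y => (g * y) / P) ?_ ?_
      · intro y hy
        rw [Finset.mem_coe, Finset.mem_filter, hI, Finset.mem_Icc] at hy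
        obtain ⟨hy1, w, hw⟩ := hy
        rw [Finset.mem_coe]
        beta_reduce
        rw [hw, Int.mul_ediv_cancel_left _ hPz.ne', Finset.mem_Icc, ← abs_le]
        have h3 : |g * y| ≤ Y * P := by
          rw [abs_mul]
          refine le_trans ?_ hY
          exact mul_le_mul_of_nonneg_left (abs_le.2 hy1) (abs_nonneg _)
        rw [hw, abs_mul, abs_of_pos hPz, mul_comm] at h3
        exact le_of_mul_le_mul_right h3 hPz
      · intro y hy y' hy' hyy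
        rw [Finset.mem_coe, Finset.mem_filter] at hy hy'
        obtain ⟨_, w, hw⟩ := hy
        obtain ⟨_, w', hw'⟩ := hy'
        beta_reduce at hyy
        rw [hw, hw', Int.mul_ediv_cancel_left _ hPz.ne', Int.mul_ediv_cancel_left _ hPz.ne'] at hyy
        rw [hyy, ← hw'] at hw
        exact mul_left_cancel₀ hg hw
    have h3 : (Icc (-(Y : ℤ)) Y).card = 2 * Y + 1 := by
      rw [Int.card_Icc]; omega
    rw [h3] at h2
    exact_mod_cast h2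
  refine h1.trans ?_
  have hhalf : (((κ * (κ - 1) / 2 : ℕ)) : ℝ) = (κ : ℝ) * (κ - 1) / 2 := by
    have h1 : 2 ∣ κ * (κ - 1) := (Nat.even_mul_pred_self κ).two_dvd
    rw [Nat.cast_div h1 (by norm_num)]
    push_cast [Nat.cast_sub hκ]
    ring
  have hexp : (H : ℝ) ^ (κ * (κ - 1) / 2) * (H : ℝ) ^ (2 * (s : ℝ) - (κ : ℝ) * (κ + 1) / 2 + η) =
      (H : ℝ) ^ (2 * (s : ℝ) - κ + η) := by
    rw [← Real.rpow_natCast (H : ℝ) (κ * (κ - 1) / 2), ← Real.rpow_add hHR]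
    congr 1
    rw [hhalf]
    ring
  have hKpos : 0 ≤ ∑ y ∈ I, KX P ((g : ℝ) / P * y) := Finset.sum_nonneg fun y _ => KX_nonneg _ _
  calc ((s : ℝ) ^ (κ - 1) * (H : ℝ) ^ (κ * (κ - 1) / 2)) * (Jm κ s H * ∑ y ∈ I, KX P ((g : ℝ) / P * y))
      ≤ ((s : ℝ) ^ (κ - 1) * (H : ℝ) ^ (κ * (κ - 1) / 2)) *
        ((CJ * (H : ℝ) ^ (2 * (s : ℝ) - (κ : ℝ) * (κ + 1) / 2 + η)) * ((2 * Y + 1) * (4 * P))) := by
        refine mul_le_mul_of_nonneg_left ?_ (by positivity)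
        exact mul_le_mul (hJ H hH) hK hKpos (by positivity)
    _ = ((s : ℝ) ^ (κ - 1) * CJ * ((2 * Y + 1) * (4 * P))) *
        ((H : ℝ) ^ (κ * (κ - 1) / 2) * (H : ℝ) ^ (2 * (s : ℝ) - (κ : ℝ) * (κ + 1) / 2 + η)) := by ring
    _ = _ := by rw [hexp]

lemma sum_range_le_Ioo (P : ℕ) (F : ℤ → ℝ) (hF : ∀ a, 0 ≤ F a) :
    ∑ a ∈ range P, F (a : ℤ) ≤ ∑ a ∈ Ioo (-(P : ℤ)) P, F a := by
  classical
  have h1 : ∑ a ∈ range P, F (a : ℤ) = ∑ a ∈ (range P).image (fun a : ℕ => (a : ℤ)), F a := by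
    rw [Finset.sum_image]
    intro a _ b _ hab
    beta_reduce at hab
    exact_mod_cast hab
  rw [h1]
  refine Finset.sum_le_sum_of_subset_of_nonneg ?_ (fun a _ _ => hF a)
  intro a ha
  rw [Finset.mem_image] at ha
  obtain ⟨b, hb, rfl⟩ := ha
  rw [Finset.mem_range] at hb
  rw [Finset.mem_Ioo]
  constructor
  · have : (0 : ℤ) ≤ b := Nat.cast_nonneg _
    have : (0 : ℤ) < P := by exact_mod_cast (by omega : 0 < P)
    linarith
  · exact_mod_cast hb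

/-- moments of the correlation sums. -/
lemma dl_moment (κ s : ℕ) (hκ : 1 ≤ κ) (hs : 1 ≤ s) (hs2 : κ ≤ 2 * s) (η CJ : ℝ) (hη : 0 ≤ η)
    (hCJ : 1 ≤ CJ) (hJ : MVT κ s η CJ) : ∃ C : ℝ, 1 ≤ C ∧ ∀ (X : ℕ) (h : ℤ), 1 ≤ X → h ≠ 0 → |h| < X →
      ∑ a ∈ range (X ^ (κ + 1)), dl (κ + 1) X ((a : ℝ) / (X : ℝ) ^ (κ + 1)) h ^ (2 * s) ≤
        C * (X : ℝ) ^ (1 + η) := by
  obtain ⟨Y, hY⟩ : ∃ Y : ℕ, Y = (κ + 1) * s := ⟨_, rfl⟩
  have hsR : (1 : ℝ) ≤ (s : ℝ) ^ (κ - 1) := one_le_pow₀ (by exact_mod_cast hs)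
  refine ⟨(s : ℝ) ^ (κ - 1) * CJ * ((2 * Y + 1) * 4), ?_, ?_⟩
  · have h1 : (1 : ℝ) * 1 ≤ (s : ℝ) ^ (κ - 1) * CJ := mul_le_mul hsR hCJ zero_le_one (by positivity)
    have h2 : (1 : ℝ) ≤ (2 * Y + 1) * 4 := by
      have : (0 : ℝ) ≤ Y := Nat.cast_nonneg _
      linarith
    have h3 : (1 : ℝ) * 1 ≤ (s : ℝ) ^ (κ - 1) * CJ * ((2 * Y + 1) * 4) :=
      mul_le_mul (by linarith) h2 zero_le_one (by positivity)
    linarith
  intro X h hX hne hlt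
  have hXR : (1 : ℝ) ≤ X := by exact_mod_cast hX
  have hX0 : (0 : ℝ) < X := by linarith
  obtain ⟨P, hP⟩ : ∃ P : ℕ, P = X ^ (κ + 1) := ⟨_, rfl⟩
  have hP1 : 1 ≤ P := by rw [hP]; exact Nat.one_le_pow _ _ hX
  have hPR : (P : ℝ) = (X : ℝ) ^ (κ + 1) := by rw [hP]; push_cast; ring
  have hP0 : (0 : ℝ) < P := by rw [hPR]; positivity
  obtain ⟨H, hH⟩ : ∃ H : ℕ, (H : ℤ) = X - |h| := ⟨(X - |h|).toNat, by
    rw [Int.toNat_of_nonneg]; linarith⟩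
  have hh1 : (1 : ℤ) ≤ |h| := Int.one_le_abs hne
  have hH1 : 1 ≤ H := by
    have : (0 : ℤ) < H := by rw [hH]; linarith
    omega
  have hHX : H ≤ X := by
    have : (H : ℤ) ≤ X := by rw [hH]; linarith
    exact_mod_cast this
  obtain ⟨n0, hn0⟩ : ∃ n0 : ℤ, n0 = max (0 : ℤ) (0 - h) := ⟨_, rfl⟩
  have hn1 : min (X : ℤ) (X - h) = n0 + H := by
    rw [hn0, hH]
    rcases le_total 0 h with h0 | h0
    · rw [abs_of_nonneg h0, max_eq_left (by linarith), min_eq_right (by linarith)]; ring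
    · rw [abs_of_nonpos h0, max_eq_right (by linarith), min_eq_left (by linarith)]; ring
  obtain ⟨φ, hφ⟩ : ∃ φ : ℤ → ℤ → ℝ, φ = fun (a : ℤ) (n : ℤ) =>
    (fun n : ℤ => (fun m : ℤ => ((a : ℝ) / P) * (m : ℝ) ^ (κ + 1)) (n + h) -
      (fun m : ℤ => ((a : ℝ) / P) * (m : ℝ) ^ (κ + 1)) n) (n + n0) := ⟨_, rfl⟩
  have hφP : ∀ a : ℤ, PP κ (((((κ : ℤ) + 1) * h : ℤ) : ℝ) / P * a) (φ a) := by
    intro a
    have h1 := PP.shift (PP.diff (PP.pow (κ + 1) ((a : ℝ) / P)) h) n0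
    rw [hφ]
    convert h1 using 1
    push_cast
    ring
  have hg : ((κ : ℤ) + 1) * h ≠ 0 := mul_ne_zero (by omega) hne
  have hYP : |((κ : ℤ) + 1) * h| * ((s * H ^ κ : ℕ) : ℤ) ≤ Y * P := by
    rw [abs_mul, abs_of_pos (show (0 : ℤ) < (κ : ℤ) + 1 by omega)]
    have h1 : ((s * H ^ κ : ℕ) : ℤ) ≤ ((s * X ^ κ : ℕ) : ℤ) := by
      exact_mod_cast Nat.mul_le_mul_left _ (Nat.pow_le_pow_left hHX κ)
    calc ((κ : ℤ) + 1) * |h| * ((s * H ^ κ : ℕ) : ℤ) ≤ ((κ : ℤ) + 1) * X * ((s * X ^ κ : ℕ) : ℤ) := by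
          refine mul_le_mul ?_ h1 (Nat.cast_nonneg _) (by positivity)
          exact mul_le_mul_of_nonneg_left hlt.le (by positivity)
      _ = Y * P := by rw [hY, hP]; push_cast; ring
  have hm := moment κ s hκ hs η CJ hCJ hJ P hP1 (((κ : ℤ) + 1) * h) hg Y H hH1 hYP φ hφP
  have hterm : ∀ a : ℕ, dl (κ + 1) X ((a : ℝ) / (X : ℝ) ^ (κ + 1)) h ^ (2 * s) =
      ‖∑ u ∈ Ico (0 : ℤ) H, ec (φ a u)‖ ^ (2 * s) / (X : ℝ) ^ (2 * s) := by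
    intro a
    unfold dl
    rw [div_pow]
    congr 2
    unfold Dk
    rw [← hn0, hn1]
    congr 1
    refine Finset.sum_bij' (fun n _ => n - n0) (fun n _ => n + n0) ?_ ?_ ?_ ?_ ?_
    · intro n hn; rw [Finset.mem_Ico] at hn ⊢; constructor <;> linarith [hn.1, hn.2]
    · intro n hn; rw [Finset.mem_Ico] at hn ⊢; constructor <;> linarith [hn.1, hn.2]
    · intro n _; ring
    · intro n _; ring
    · intro n _
      rw [hφ]
      beta_reduce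
      rw [sub_add_cancel, hPR]
      push_cast
      rfl
  have hPe : X ^ (κ + 1) = P := hP.symm
  rw [hPe]
  have hs3 : ∑ a ∈ range P, dl (κ + 1) X ((a : ℝ) / (X : ℝ) ^ (κ + 1)) h ^ (2 * s) =
      (∑ a ∈ range P, ‖∑ u ∈ Ico (0 : ℤ) H, ec (φ a u)‖ ^ (2 * s)) / (X : ℝ) ^ (2 * s) := by
    rw [Finset.sum_div]
    exact Finset.sum_congr rfl fun a _ => hterm a
  rw [hs3, div_le_iff₀ (by positivity)]
  refine (sum_range_le_Ioo P (fun a => ‖∑ u ∈ Ico (0 : ℤ) H, ec (φ a u)‖ ^ (2 * s))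
    (fun a => by positivity)).trans (hm.trans ?_)
  have hexp0 : (0 : ℝ) ≤ 2 * (s : ℝ) - κ + η := by
    have : ((κ : ℕ) : ℝ) ≤ ((2 * s : ℕ) : ℝ) := by exact_mod_cast hs2
    push_cast at this
    linarith
  have h4 : (H : ℝ) ^ (2 * (s : ℝ) - κ + η) ≤ (X : ℝ) ^ (2 * (s : ℝ) - κ + η) :=
    Real.rpow_le_rpow (Nat.cast_nonneg _) (by exact_mod_cast hHX) hexp0
  have h5 : (P : ℝ) * (X : ℝ) ^ (2 * (s : ℝ) - κ + η) = (X : ℝ) ^ (1 + η) * (X : ℝ) ^ (2 * s) := by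
    rw [hPR, ← Real.rpow_natCast (X : ℝ) (κ + 1), ← Real.rpow_natCast (X : ℝ) (2 * s),
      ← Real.rpow_add hX0, ← Real.rpow_add hX0]
    congr 1
    push_cast
    ring
  calc ((s : ℝ) ^ (κ - 1) * CJ * ((2 * Y + 1) * (4 * P))) * (H : ℝ) ^ (2 * (s : ℝ) - κ + η)
      ≤ ((s : ℝ) ^ (κ - 1) * CJ * ((2 * Y + 1) * (4 * P))) * (X : ℝ) ^ (2 * (s : ℝ) - κ + η) :=
        mul_le_mul_of_nonneg_left h4 (by positivity)
    _ = ((s : ℝ) ^ (κ - 1) * CJ * ((2 * Y + 1) * 4)) * (P * (X : ℝ) ^ (2 * (s : ℝ) - κ + η)) := by ring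
    _ = _ := by rw [h5]; ring

/-- moments of the Weyl sums. -/
lemma fS_moment (k s : ℕ) (hk : 1 ≤ k) (hs : 1 ≤ s) (η CJ : ℝ)
    (hCJ : 1 ≤ CJ) (hJ : MVT k s η CJ) : ∃ C : ℝ, 1 ≤ C ∧ ∀ R X : ℕ, 1 ≤ R → 1 ≤ X →
      ∑ a ∈ range (R * X ^ k), (‖fS k X ((a : ℝ) / ((R * X ^ k : ℕ) : ℝ))‖ / X) ^ (2 * s) ≤
        C * R * (X : ℝ) ^ η := by
  have hsR : (1 : ℝ) ≤ (s : ℝ) ^ (k - 1) := one_le_pow₀ (by exact_mod_cast hs)
  refine ⟨(s : ℝ) ^ (k - 1) * CJ * ((2 * s + 1) * 4), ?_, ?_⟩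
  · have h1 : (1 : ℝ) * 1 ≤ (s : ℝ) ^ (k - 1) * CJ := mul_le_mul hsR hCJ zero_le_one (by positivity)
    have h2 : (1 : ℝ) ≤ (2 * s + 1) * 4 := by
      have : (0 : ℝ) ≤ s := Nat.cast_nonneg _
      linarith
    have h3 : (1 : ℝ) * 1 ≤ (s : ℝ) ^ (k - 1) * CJ * ((2 * s + 1) * 4) :=
      mul_le_mul (by linarith) h2 zero_le_one (by positivity)
    linarith
  intro R X hR hX
  have hXR : (1 : ℝ) ≤ X := by exact_mod_cast hX
  have hX0 : (0 : ℝ) < X := by linarith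
  obtain ⟨P, hP⟩ : ∃ P : ℕ, P = R * X ^ k := ⟨_, rfl⟩
  have hXk : 1 ≤ X ^ k := Nat.one_le_pow _ _ hX
  have hP1 : 1 ≤ P := by rw [hP]; exact Nat.mul_pos (by omega) hXk
  have hPR : (P : ℝ) = R * (X : ℝ) ^ k := by rw [hP]; push_cast; ring
  rw [← hP]
  have hm := moment k s hk hs η CJ hCJ hJ P hP1 1 one_ne_zero s X hX (by
    rw [abs_one, one_mul]
    have h1 : s * X ^ k ≤ s * P := by
      refine Nat.mul_le_mul_left _ ?_
      rw [hP]; exact Nat.le_mul_of_pos_left _ (by omega)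
    exact_mod_cast h1) (fun (a n : ℤ) => ((a : ℝ) / P) * (n : ℝ) ^ k) (by
    intro a
    have h1 := PP.pow k ((a : ℝ) / P)
    convert h1 using 1
    push_cast
    ring)
  have hterm : ∀ a : ℕ, (‖fS k X ((a : ℝ) / ((P : ℕ) : ℝ))‖ / X) ^ (2 * s) =
      ‖∑ u ∈ Ico (0 : ℤ) X, ec ((((a : ℤ) : ℝ) / P) * (u : ℝ) ^ k)‖ ^ (2 * s) / (X : ℝ) ^ (2 * s) := by
    intro a
    rw [div_pow]
    unfold fS
    push_cast
    rfl
  have hs3 : ∑ a ∈ range P, (‖fS k X ((a : ℝ) / ((P : ℕ) : ℝ))‖ / X) ^ (2 * s) =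
      (∑ a ∈ range P, ‖∑ u ∈ Ico (0 : ℤ) X, ec ((((a : ℤ) : ℝ) / P) * (u : ℝ) ^ k)‖ ^ (2 * s)) /
        (X : ℝ) ^ (2 * s) := by
    rw [Finset.sum_div]
    exact Finset.sum_congr rfl fun a _ => hterm a
  rw [hs3, div_le_iff₀ (by positivity)]
  refine (sum_range_le_Ioo P (fun a => ‖∑ u ∈ Ico (0 : ℤ) X, ec (((a : ℝ) / P) * (u : ℝ) ^ k)‖ ^ (2 * s))
    (fun a => by positivity)).trans (hm.trans ?_)
  have h5 : (X : ℝ) ^ k * (X : ℝ) ^ (2 * (s : ℝ) - k + η) = (X : ℝ) ^ η * (X : ℝ) ^ (2 * s) := by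
    rw [← Real.rpow_natCast (X : ℝ) k, ← Real.rpow_natCast (X : ℝ) (2 * s),
      ← Real.rpow_add hX0, ← Real.rpow_add hX0]
    congr 1
    push_cast
    ring
  refine le_of_eq ?_
  calc ((s : ℝ) ^ (k - 1) * CJ * ((2 * s + 1) * (4 * P))) * (X : ℝ) ^ (2 * (s : ℝ) - k + η)
      = ((s : ℝ) ^ (k - 1) * CJ * ((2 * s + 1) * 4)) * R * ((X : ℝ) ^ k * (X : ℝ) ^ (2 * (s : ℝ) - k + η)) := by
        rw [hPR]; ring
    _ = _ := by rw [h5]; ring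

end Pool.Agent.helper132_quad
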