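import Pool.Agent.helper132_quad.Q2
import Pool.Agent.helper132_sph.MP

/-! The structure hypothesis with a small exponent, and the classification of frequencies. -/

namespace Pool.Agent.helper132_quad

open Finset Pool.Agent.helper132_sph Pool.Agent.helper132_poly

/-- differenced mean values on the minor arcs. -/
def S1H (κ M : ℕ) (C : ℝ) : Prop :=
  ∀ (X : ℕ) (α R : ℝ) (φ : ℤ → ℝ), 1 ≤ X → PP (κ + 1) α φ → 1 ≤ R → R ≤ X →
    (∀ (q : ℕ) (c : ℤ), 1 ≤ q → (q : ℝ) ≤ R → R < |q * α - c| * (X : ℝ) ^ (κ + 1)) →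
    Vm φ X M ^ 12 * R ^ 11 ≤ C

/-- the structure hypothesis. -/
def Hs (k m g : ℕ) (C : ℝ) : Prop :=
  ∀ (X : ℕ) (α R : ℝ), 1 ≤ X → 1 ≤ R → R ^ 10 ≤ (X : ℝ) ^ g →
    Pool.Agent.helper132_poly.Minor k X α R → Dl k m X α ^ (2 * k) * R ^ 5 ≤ C

lemma Hs.mono {k m g : ℕ} {C C' : ℝ} (h : Hs k m g C) (hC : C ≤ C') : Hs k m g C' :=
  fun X α R h1 h2 h3 h4 => (h X α R h1 h2 h3 h4).trans hC

/-- power mean inequality for the averages. -/
lemma Dl_power (k m M X : ℕ) (α : ℝ) (hX : 1 ≤ X) (hm : 1 ≤ m) (hmM : m ≤ M) :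
    Dl k m X α ^ M ≤ 2 ^ M * Dl k M X α ^ m := by
  have hXR : (0 : ℝ) < X := by exact_mod_cast hX
  have hmR : (0 : ℝ) < m := by exact_mod_cast hm
  have hmMR : (m : ℝ) ≤ M := by exact_mod_cast hmM
  obtain ⟨p, hp⟩ : ∃ p : ℝ, p = (M : ℝ) / m := ⟨_, rfl⟩
  have hp1 : 1 ≤ p := by rw [hp, le_div_iff₀ hmR]; linarith
  have hpm : p * m = M := by rw [hp]; field_simp
  obtain ⟨I, hI⟩ : ∃ I : Finset ℤ, I = Ioo (-(X : ℤ)) X := ⟨_, rfl⟩
  have hcard : (I.card : ℝ) ≤ 2 * X := by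
    rw [hI, Int.card_Ioo]
    have : ((X : ℤ) - -(X : ℤ) - 1).toNat ≤ 2 * X := by omega
    exact_mod_cast this
  have h1 := Real.rpow_sum_le_const_mul_sum_rpow_of_nonneg I (f := fun h => dl k X α h ^ m) hp1
    (fun h _ => pow_nonneg (dl_nonneg _ _ _ _) _)
  have h2 : ∑ h ∈ I, (dl k X α h ^ m) ^ p = ∑ h ∈ I, dl k X α h ^ M := by
    refine Finset.sum_congr rfl fun h _ => ?_
    rw [← Real.rpow_natCast, ← Real.rpow_mul (dl_nonneg _ _ _ _), mul_comm, hpm, Real.rpow_natCast]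
  have hS : ∑ h ∈ I, dl k X α h ^ m = Dl k m X α * X := by
    unfold Dl; rw [hI]; field_simp
  have hSM : ∑ h ∈ I, dl k X α h ^ M = Dl k M X α * X := by
    unfold Dl; rw [hI]; field_simp
  rw [h2, hS, hSM] at h1
  obtain ⟨δ, hδ⟩ : ∃ δ : ℝ, δ = Dl k m X α := ⟨_, rfl⟩
  obtain ⟨V, hV⟩ : ∃ V : ℝ, V = Dl k M X α := ⟨_, rfl⟩
  have hδ0 : 0 ≤ δ := by rw [hδ]; exact Dl_nonneg _ _ _ _
  have hV0 : 0 ≤ V := by rw [hV]; exact Dl_nonneg _ _ _ _
  rw [← hδ, ← hV] at h1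
  rw [← hδ, ← hV]
  have h3 : δ ^ p ≤ 2 ^ p * V := by
    have h4 : δ ^ p * (X : ℝ) ^ p ≤ (2 * X) ^ (p - 1) * (V * X) := by
      rw [← Real.mul_rpow hδ0 hXR.le]
      refine h1.trans (mul_le_mul_of_nonneg_right ?_ (by positivity))
      exact Real.rpow_le_rpow (Nat.cast_nonneg _) hcard (by linarith)
    have h5 : (2 * (X : ℝ)) ^ (p - 1) * (V * X) = 2 ^ (p - 1) * V * (X : ℝ) ^ p := by
      rw [Real.mul_rpow (by norm_num) hXR.le]
      have h6 : (X : ℝ) ^ (p - 1) * X = (X : ℝ) ^ p := by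
        conv_lhs => rw [← Real.rpow_one (X : ℝ), ← Real.rpow_mul hXR.le, one_mul]
        rw [← Real.rpow_add hXR]
        congr 1
        ring
      calc (2 : ℝ) ^ (p - 1) * (X : ℝ) ^ (p - 1) * (V * X) = 2 ^ (p - 1) * V * ((X : ℝ) ^ (p - 1) * X) := by
            ring
        _ = _ := by rw [h6]
    rw [h5] at h4
    have h7 : (0 : ℝ) < (X : ℝ) ^ p := by positivity
    refine (le_of_mul_le_mul_right h4 h7).trans ?_
    refine mul_le_mul_of_nonneg_right ?_ hV0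
    exact Real.rpow_le_rpow_of_exponent_le (by norm_num) (by linarith)
  calc δ ^ M = (δ ^ p) ^ m := by
        rw [← Real.rpow_natCast (δ ^ p) m, ← Real.rpow_mul hδ0, hpm, Real.rpow_natCast]
    _ ≤ (2 ^ p * V) ^ m := pow_le_pow_left₀ (by positivity) h3 m
    _ = 2 ^ M * V ^ m := by
        rw [mul_pow, ← Real.rpow_natCast ((2 : ℝ) ^ p) m, ← Real.rpow_mul (by norm_num), hpm,
          Real.rpow_natCast]

theorem Hs_holds (κ M m g : ℕ) (hm1 : 1 ≤ m) (hmM : m ≤ M) (hg : 10 ≤ g)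
    (h1 : 3 * g * M ≤ 11 * (κ + 1) * m) (C0 : ℝ) (hC0 : 1 ≤ C0) (hS : S1H κ M C0) :
    ∃ C : ℝ, 1 ≤ C ∧ Hs (κ + 1) m g C := by
  obtain ⟨B, hB⟩ : ∃ B : ℝ, B = 2 ^ (24 * (κ + 1) * M) * C0 ^ (2 * (κ + 1) * m) := ⟨_, rfl⟩
  have hB1 : 1 ≤ B := by
    have e1 : (1 : ℝ) ≤ 2 ^ (24 * (κ + 1) * M) := one_le_pow₀ (by norm_num)
    have e2 : (1 : ℝ) ≤ C0 ^ (2 * (κ + 1) * m) := one_le_pow₀ hC0
    rw [hB]
    calc (1 : ℝ) = 1 * 1 := by ring
      _ ≤ _ := mul_le_mul e1 e2 zero_le_one (by positivity)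
  refine ⟨B, hB1, ?_⟩
  intro X α R hX hR1 hRX hmin
  have hXR : (0 : ℝ) < X := by exact_mod_cast hX
  have hX1 : (1 : ℝ) ≤ X := by exact_mod_cast hX
  have hR0 : 0 < R := by linarith
  obtain ⟨δ, hδ⟩ : ∃ δ : ℝ, δ = Dl (κ + 1) m X α := ⟨_, rfl⟩
  obtain ⟨V, hV⟩ : ∃ V : ℝ, V = Dl (κ + 1) M X α := ⟨_, rfl⟩
  have hδ0 : 0 ≤ δ := by rw [hδ]; exact Dl_nonneg _ _ _ _
  have hV0 : 0 ≤ V := by rw [hV]; exact Dl_nonneg _ _ _ _
  have hp := Dl_power (κ + 1) m M X α hX hm1 hmM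
  rw [← hδ, ← hV] at hp
  rw [← hδ]
  have hVR : (V ^ 12) ^ (2 * (κ + 1) * m) * R ^ (60 * M) ≤ C0 ^ (2 * (κ + 1) * m) := by
    rcases le_or_gt R X with hRX' | hRX'
    · have h := hS X α R (fun n : ℤ => α * (n : ℝ) ^ (κ + 1)) hX (PP.pow (κ + 1) α) hR1 hRX' hmin
      rw [← Dl_eq_Vm, ← hV] at h
      have e1 : R ^ (60 * M) ≤ (R ^ 11) ^ (2 * (κ + 1) * m) := by
        rw [← pow_mul]
        refine pow_le_pow_right₀ hR1 ?_
        have : 3 * 10 * M ≤ 3 * g * M := Nat.mul_le_mul_right _ (by omega)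
        calc 60 * M = 2 * (3 * 10 * M) := by ring
          _ ≤ 2 * (11 * (κ + 1) * m) := by omega
          _ = 11 * (2 * (κ + 1) * m) := by ring
      calc (V ^ 12) ^ (2 * (κ + 1) * m) * R ^ (60 * M)
          ≤ (V ^ 12) ^ (2 * (κ + 1) * m) * (R ^ 11) ^ (2 * (κ + 1) * m) :=
            mul_le_mul_of_nonneg_left e1 (by positivity)
        _ = (V ^ 12 * R ^ 11) ^ (2 * (κ + 1) * m) := by rw [mul_pow]
        _ ≤ _ := pow_le_pow_left₀ (by positivity) h _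
    · have h := hS X α X (fun n : ℤ => α * (n : ℝ) ^ (κ + 1)) hX (PP.pow (κ + 1) α) hX1 le_rfl
        (hmin.mono hRX'.le)
      rw [← Dl_eq_Vm, ← hV] at h
      have e1 : R ^ (60 * M) ≤ ((X : ℝ) ^ 11) ^ (2 * (κ + 1) * m) := by
        calc R ^ (60 * M) = (R ^ 10) ^ (6 * M) := by rw [← pow_mul]; congr 1; ring
          _ ≤ ((X : ℝ) ^ g) ^ (6 * M) := pow_le_pow_left₀ (by positivity) hRX _
          _ = (X : ℝ) ^ (g * (6 * M)) := by rw [← pow_mul]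
          _ ≤ (X : ℝ) ^ (11 * (2 * (κ + 1) * m)) := by
              refine pow_le_pow_right₀ hX1 ?_
              calc g * (6 * M) = 2 * (3 * g * M) := by ring
                _ ≤ 2 * (11 * (κ + 1) * m) := by omega
                _ = 11 * (2 * (κ + 1) * m) := by ring
          _ = _ := by rw [← pow_mul]
      calc (V ^ 12) ^ (2 * (κ + 1) * m) * R ^ (60 * M)
          ≤ (V ^ 12) ^ (2 * (κ + 1) * m) * ((X : ℝ) ^ 11) ^ (2 * (κ + 1) * m) :=
            mul_le_mul_of_nonneg_left e1 (by positivity)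
        _ = (V ^ 12 * (X : ℝ) ^ 11) ^ (2 * (κ + 1) * m) := by rw [mul_pow]
        _ ≤ _ := pow_le_pow_left₀ (by positivity) h _
  refine le_of_pow_le_pow_left₀ (n := 12 * M) (by omega) (by linarith) ?_
  calc (δ ^ (2 * (κ + 1)) * R ^ 5) ^ (12 * M) = (δ ^ M) ^ (24 * (κ + 1)) * R ^ (60 * M) := by
        rw [mul_pow, ← pow_mul, ← pow_mul, ← pow_mul]
        congr 2 <;> ring
    _ ≤ (2 ^ M * V ^ m) ^ (24 * (κ + 1)) * R ^ (60 * M) :=
        mul_le_mul_of_nonneg_right (pow_le_pow_left₀ (by positivity) hp _) (by positivity)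
    _ = 2 ^ (24 * (κ + 1) * M) * ((V ^ 12) ^ (2 * (κ + 1) * m) * R ^ (60 * M)) := by
        have e1 : ((2 : ℝ) ^ M) ^ (24 * (κ + 1)) = 2 ^ (24 * (κ + 1) * M) := by
          rw [← pow_mul]; congr 1; ring
        have e2 : (V ^ m) ^ (24 * (κ + 1)) = (V ^ 12) ^ (2 * (κ + 1) * m) := by
          rw [← pow_mul, ← pow_mul]; congr 1; ring
        rw [mul_pow, e1, e2, mul_assoc]
    _ ≤ 2 ^ (24 * (κ + 1) * M) * C0 ^ (2 * (κ + 1) * m) :=
        mul_le_mul_of_nonneg_left hVR (by positivity)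
    _ = B := hB.symm
    _ ≤ B ^ (12 * M) := le_self_pow₀ hB1 (by omega)

/-- every frequency is minor or is attached to a good triple. -/
theorem classify'' (κ m g : ℕ) (hκ : 2 ≤ κ) (hg2 : g ≤ 20) (C : ℝ) (hC : 1 ≤ C)
    (hst : Hs (κ + 1) m g C) :
    ∃ C' : ℝ, C ≤ C' ∧ ∀ (X : ℕ) (_ : 1 ≤ X) (a : ℕ) (_ : a < X ^ (κ + 1)),
      (∃ R : ℝ, 0 ≤ R ∧ Pool.Agent.helper132_poly.Minor (κ + 1) X ((a : ℝ) / (X : ℝ) ^ (κ + 1)) R ∧
        (X : ℝ) ^ g ≤ 1024 * R ^ 10) ∨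
      ∃ τ : ℕ × ℤ × ℤ, GoodT (κ + 1) m C' X τ ∧
        (a : ℤ) = τ.2.2 + ((X : ℤ) ^ (κ + 1) * τ.2.1) / (τ.1 : ℤ) := by
  classical
  obtain ⟨C1, hC1⟩ : ∃ C1 : ℝ, C1 = 32 * C + 4 ^ (κ + 1) := ⟨_, rfl⟩
  have hC0 : 0 < C := by linarith
  have h4p : (0 : ℝ) < 4 ^ (κ + 1) := by positivity
  have hC1C : C ≤ C1 := by linarith
  have hC1pos : 0 < C1 := by linarith
  have h243 : C1 ≤ C1 * 243 := by linarith
  refine ⟨C1 * 243, by linarith, ?_⟩
  intro X hX a ha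
  set α : ℝ := (a : ℝ) / (X : ℝ) ^ (κ + 1) with hα
  have hXR : (1 : ℝ) ≤ X := by exact_mod_cast hX
  have hXpos : (0 : ℝ) < X := by linarith
  have hXk : (0 : ℝ) < (X : ℝ) ^ (κ + 1) := by positivity
  set ν := Nat.find (exists_inArc (κ + 1) X α) with hν
  have hin : InArc (κ + 1) X α ν := Nat.find_spec (exists_inArc (κ + 1) X α)
  have hmin : ∀ μ, μ < ν → ¬ InArc (κ + 1) X α μ := fun μ h => Nat.find_min _ h
  have hminor : 1 ≤ ν → Pool.Agent.helper132_poly.Minor (κ + 1) X α (2 ^ (ν - 1)) := by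
    intro h0 q c hq1 hq2
    by_contra hcon
    push Not at hcon
    exact hmin (ν - 1) (by omega) ⟨q, c, hq1, hq2, hcon⟩
  have h2ν : (1 : ℝ) ≤ 2 ^ ν := one_le_pow₀ (by norm_num)
  rcases le_or_gt (((2 : ℝ) ^ ν) ^ 10) ((X : ℝ) ^ g) with hcase | hcase
  · right
    have hDl5 : Dl (κ + 1) m X α ^ (2 * (κ + 1)) ≤ C1 / ((2 : ℝ) ^ ν) ^ 5 := by
      rcases Nat.eq_zero_or_pos ν with h0 | h0
      · rw [h0]
        have h1 : Dl (κ + 1) m X α ^ (2 * (κ + 1)) ≤ 4 ^ (κ + 1) := by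
          calc Dl (κ + 1) m X α ^ (2 * (κ + 1)) ≤ 2 ^ (2 * (κ + 1)) :=
                pow_le_pow_left₀ (Dl_nonneg _ _ _ _) (Dl_le_two _ _ _ _ hX) _
            _ = 4 ^ (κ + 1) := by rw [pow_mul]; norm_num
        simp only [pow_zero, one_pow, div_one]
        linarith
      · have hpow : (2 : ℝ) ^ ν = 2 ^ (ν - 1) * 2 := by
          rw [← pow_succ]; congr 1; omega
        have hle : (2 : ℝ) ^ (ν - 1) ≤ 2 ^ ν := pow_le_pow_right₀ (by norm_num) (by omega)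
        have h1 := hst X α (2 ^ (ν - 1)) hX (one_le_pow₀ (by norm_num))
          ((pow_le_pow_left₀ (by positivity) hle 10).trans hcase) (hminor h0)
        rw [le_div_iff₀ (by positivity), hpow]
        calc Dl (κ + 1) m X α ^ (2 * (κ + 1)) * ((2 : ℝ) ^ (ν - 1) * 2) ^ 5 =
              32 * (Dl (κ + 1) m X α ^ (2 * (κ + 1)) * ((2 : ℝ) ^ (ν - 1)) ^ 5) := by ring
          _ ≤ 32 * C := mul_le_mul_of_nonneg_left h1 (by norm_num)
          _ ≤ C1 := by linarith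
    obtain ⟨q, c, hq1, hq2, hq3⟩ := hin
    have hqR : (1 : ℝ) ≤ q := by exact_mod_cast hq1
    have hqpos : (0 : ℝ) < q := by linarith
    -- coprimality
    have hcop : IsCoprime c (q : ℤ) := by
      rw [Int.isCoprime_iff_gcd_eq_one]
      by_contra hne
      set g := Int.gcd c q with hg
      have hgq : g ∣ q := by
        have := Int.gcd_dvd_right c (q : ℤ)
        exact_mod_cast this
      have hgpos : 0 < g := Nat.pos_of_dvd_of_pos hgq (by omega)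
      have hg2 : 2 ≤ g := by omega
      obtain ⟨q', hq'⟩ := hgq
      obtain ⟨c', hc'⟩ : (g : ℤ) ∣ c := Int.gcd_dvd_left c (q : ℤ)
      have hgR : (2 : ℝ) ≤ g := by exact_mod_cast hg2
      have hgR0 : (0 : ℝ) < g := by linarith
      have hq'1 : 1 ≤ q' := by
        rcases Nat.eq_zero_or_pos q' with h | h
        · rw [h] at hq'; omega
        · exact h
      have hν1 : 1 ≤ ν := by
        by_contra h0
        have : ν = 0 := by omega
        rw [this, pow_zero] at hq2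
        have h1 : q ≤ 1 := by exact_mod_cast hq2
        have : 2 * 1 ≤ g * q' := Nat.mul_le_mul hg2 hq'1
        omega
      apply hmin (ν - 1) (by omega)
      have hpow : (2 : ℝ) ^ ν = 2 ^ (ν - 1) * 2 := by
        rw [← pow_succ]; congr 1; omega
      have hqq : (q : ℝ) = g * q' := by exact_mod_cast hq'
      have hcc : (c : ℝ) = g * c' := by exact_mod_cast hc'
      refine ⟨q', c', hq'1, ?_, ?_⟩
      · have h1 : 2 * (q' : ℝ) ≤ g * q' := mul_le_mul_of_nonneg_right hgR (Nat.cast_nonneg _)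
        rw [← hqq] at h1
        linarith
      · have h1 : (q : ℝ) * α - c = g * (q' * α - c') := by rw [hqq, hcc]; ring
        rw [h1, abs_mul, abs_of_pos hgR0, hpow] at hq3
        have h2 : 0 ≤ |(q' : ℝ) * α - c'| * (X : ℝ) ^ (κ + 1) := by positivity
        have h3 : 2 * (|(q' : ℝ) * α - c'| * (X : ℝ) ^ (κ + 1)) ≤
            g * (|(q' : ℝ) * α - c'| * (X : ℝ) ^ (κ + 1)) := mul_le_mul_of_nonneg_right hgR h2
        linarith
    -- bounds on c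
    have hα0 : 0 ≤ α := by rw [hα]; positivity
    have hα1 : α ≤ 1 := by
      rw [hα, div_le_one hXk]
      exact_mod_cast ha.le
    have h2νX : (2 : ℝ) ^ ν ≤ (X : ℝ) ^ (κ + 1) := by
      have h1 : ((2 : ℝ) ^ ν) ^ 10 ≤ ((X : ℝ) ^ 2) ^ 10 := by
        calc ((2 : ℝ) ^ ν) ^ 10 ≤ (X : ℝ) ^ g := hcase
          _ ≤ (X : ℝ) ^ 20 := pow_le_pow_right₀ hXR hg2
          _ = ((X : ℝ) ^ 2) ^ 10 := by rw [← pow_mul]
      have h2 : (2 : ℝ) ^ ν ≤ (X : ℝ) ^ 2 :=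
        le_of_pow_le_pow_left₀ (by norm_num) (by positivity) h1
      exact h2.trans (pow_le_pow_right₀ hXR (by omega))
    have hqc : |(q : ℝ) * α - c| ≤ 1 := by
      have h1 : |(q : ℝ) * α - c| * (X : ℝ) ^ (κ + 1) ≤ 1 * (X : ℝ) ^ (κ + 1) := by linarith
      exact le_of_mul_le_mul_right h1 hXk
    rw [abs_le] at hqc
    have hqα : (q : ℝ) * α ≤ q := by nlinarith
    have hqα0 : 0 ≤ (q : ℝ) * α := by positivity
    have hc1 : -1 ≤ c := by
      have : (-1 : ℝ) ≤ c := by linarith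
      exact_mod_cast this
    have hc2 : c ≤ q + 1 := by
      have : (c : ℝ) ≤ q + 1 := by linarith
      exact_mod_cast this
    set i : ℤ := (a : ℤ) - ((X : ℤ) ^ (κ + 1) * c) / (q : ℤ) with hi
    have hai : (a : ℤ) = i + ((X : ℤ) ^ (κ + 1) * c) / (q : ℤ) := by rw [hi]; ring
    have hfr : frq (κ + 1) X (q, c, i) = α := by
      unfold frq
      simp only
      rw [← hai, hα]
      simp
    refine ⟨(q, c, i), ⟨hq1, hcop, hc1, hc2, ?_⟩, hai⟩
    rw [hfr]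
    -- size of the triple
    have hqz : (0 : ℤ) < q := by exact_mod_cast (by omega : 0 < q)
    have hi_bound : (q : ℝ) * (|(i : ℝ)| - 1) ≤ 2 ^ ν := by
      have h1 : (q : ℝ) * i - 0 = X ^ (κ + 1) * (q * α - c) + (((X : ℤ) ^ (κ + 1) * c) % (q : ℤ) : ℤ) := by
        have h2 := Int.mul_ediv_add_emod ((X : ℤ) ^ (κ + 1) * c) (q : ℤ)
        have h3 : ((q : ℤ) * i : ℤ) = q * a - X ^ (κ + 1) * c + ((X : ℤ) ^ (κ + 1) * c) % (q : ℤ) := by
          rw [hi]; linarith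
        have h4 : ((q : ℝ) * i) = q * a - X ^ (κ + 1) * c + ((((X : ℤ) ^ (κ + 1) * c) % (q : ℤ) : ℤ) : ℝ) := by
          exact_mod_cast h3
        rw [sub_zero, h4, hα]
        field_simp
      have h5 : (0 : ℤ) ≤ ((X : ℤ) ^ (κ + 1) * c) % (q : ℤ) := Int.emod_nonneg _ hqz.ne'
      have h6 : ((X : ℤ) ^ (κ + 1) * c) % (q : ℤ) < q := Int.emod_lt_of_pos _ hqz
      have h5' : (0 : ℝ) ≤ ((((X : ℤ) ^ (κ + 1) * c) % (q : ℤ) : ℤ) : ℝ) := by exact_mod_cast h5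
      have h6' : ((((X : ℤ) ^ (κ + 1) * c) % (q : ℤ) : ℤ) : ℝ) ≤ q := by exact_mod_cast h6.le
      have h7 : |(q : ℝ) * i| ≤ 2 ^ ν + q := by
        have : (q : ℝ) * i = X ^ (κ + 1) * (q * α - c) + (((X : ℤ) ^ (κ + 1) * c) % (q : ℤ) : ℤ) := by
          linarith
        rw [this]
        refine (abs_add_le _ _).trans (add_le_add ?_ ?_)
        · rw [abs_mul, abs_of_pos hXk, mul_comm]
          exact hq3
        · rw [abs_of_nonneg h5']
          exact h6'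
      rw [abs_mul, abs_of_pos hqpos] at h7
      linarith
    have hwt : ((wt (q, c, i) : ℕ) : ℝ) ≤ 3 * 2 ^ ν := by
      unfold wt
      simp only
      push_cast
      have hiabs : ((i.natAbs : ℕ) : ℝ) = |(i : ℝ)| := by
        rw [Nat.cast_natAbs]; simp
      rw [hiabs]
      rcases le_or_gt (i.natAbs) 1 with h | h
      · have h1 : |(i : ℝ)| ≤ 1 := by rw [← hiabs]; exact_mod_cast h
        have h2 : (q : ℝ) * (1 + |(i : ℝ)|) ≤ q * 2 :=
          mul_le_mul_of_nonneg_left (by linarith) hqpos.le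
        linarith
      · have h1 : (2 : ℝ) ≤ |(i : ℝ)| := by rw [← hiabs]; exact_mod_cast h
        have h2 : (q : ℝ) * (1 + |(i : ℝ)|) ≤ q * (3 * (|(i : ℝ)| - 1)) :=
          mul_le_mul_of_nonneg_left (by linarith) hqpos.le
        linarith
    have hpos5 : (0 : ℝ) < ((2 : ℝ) ^ ν) ^ 5 := by positivity
    calc Dl (κ + 1) m X α ^ (2 * (κ + 1)) * ((wt (q, c, i) : ℕ) : ℝ) ^ 5
        ≤ (C1 / ((2 : ℝ) ^ ν) ^ 5) * (3 * 2 ^ ν) ^ 5 := by
          refine mul_le_mul hDl5 ?_ (by positivity) (by positivity)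
          exact pow_le_pow_left₀ (Nat.cast_nonneg _) hwt _
      _ = C1 * 243 := by
          rw [mul_pow]
          field_simp
          norm_num
  · left
    have h0 : 1 ≤ ν := by
      by_contra hcon
      have : ν = 0 := by omega
      rw [this, pow_zero, one_pow] at hcase
      have : (1 : ℝ) ≤ (X : ℝ) ^ g := one_le_pow₀ hXR
      linarith
    have hpow : (2 : ℝ) ^ ν = 2 ^ (ν - 1) * 2 := by
      rw [← pow_succ]; congr 1; omega
    refine ⟨2 ^ (ν - 1), by positivity, hminor h0, ?_⟩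
    rw [hpow] at hcase
    calc (X : ℝ) ^ g ≤ ((2 : ℝ) ^ (ν - 1) * 2) ^ 10 := hcase.le
      _ = 1024 * ((2 : ℝ) ^ (ν - 1)) ^ 10 := by ring

end Pool.Agent.helper132_quad
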