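import Pool.Agent.helper132_quad.Q3

/-! Same scale bounds. -/

namespace Pool.Agent.helper132_quad

open Finset Pool.Agent.helper132_sph Pool.Agent.helper132_poly

/-- the same-scale bound. -/
lemma dl_same'' (κ m g : ℕ) (hκ : 2 ≤ κ) (hg : 10 ≤ g) (C : ℝ) (hC : 1 ≤ C)
    (hst : Hs (κ + 1) m g C)
    (q : ℕ) (hq : 1 ≤ q) (a : ℝ) (ha : 4 ≤ a) (X : ℕ) (t : ℝ)
    (ht : |t| ≤ a + 1) (ht2 : a - 1 ≤ |t|) (hX : (q : ℝ) * a ^ 2 ≤ X) :
    Dl (κ + 1) m (Nq q X) (t / (X : ℝ) ^ (κ + 1) * (q : ℝ) ^ (κ + 1)) ^ (2 * (κ + 1)) * a ^ 5 ≤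
      33 * C := by
  have hqR1 : (1 : ℝ) ≤ q := by exact_mod_cast hq
  have hqR : (0 : ℝ) < q := by linarith
  have ha0 : (0 : ℝ) < a := by linarith
  have ha2 : (1 : ℝ) ≤ a ^ 2 := one_le_pow₀ (by linarith)
  have hXR : (1 : ℝ) ≤ X := by
    have : (q : ℝ) * 1 ≤ q * a ^ 2 := mul_le_mul_of_nonneg_left ha2 hqR.le
    linarith
  have hX0 : (0 : ℝ) < X := by linarith
  have hX1 : 1 ≤ X := by exact_mod_cast hXR
  obtain ⟨N, hN⟩ : ∃ N, N = Nq q X := ⟨_, rfl⟩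
  have hN1 : 1 ≤ N := by rw [hN]; exact Nq_pos q X hq hX1
  have hNR : (1 : ℝ) ≤ N := by exact_mod_cast hN1
  have hN0 : (0 : ℝ) < N := by linarith
  have hqN : (X : ℝ) ≤ q * N := by rw [hN]; exact_mod_cast Nq_lower q X hq
  rw [← hN]
  obtain ⟨γ, hγ⟩ : ∃ γ, γ = t / (X : ℝ) ^ (κ + 1) * (q : ℝ) ^ (κ + 1) := ⟨_, rfl⟩
  rw [← hγ]
  obtain ⟨z, hz⟩ : ∃ z : ℝ, z = ((q : ℝ) / X) ^ (κ + 1) := ⟨_, rfl⟩
  have hz0 : 0 < z := by rw [hz]; positivity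
  have hγz : |γ| = |t| * z := by
    rw [hγ, hz, abs_mul, abs_div, abs_of_pos (show (0 : ℝ) < (X : ℝ) ^ (κ + 1) by positivity),
      abs_of_pos (show (0 : ℝ) < (q : ℝ) ^ (κ + 1) by positivity), div_pow]
    ring
  have hzN : 1 ≤ z * (N : ℝ) ^ (κ + 1) := by
    rw [hz, ← mul_pow]
    apply one_le_pow₀
    rw [div_mul_eq_mul_div, le_div_iff₀ hX0, one_mul]
    exact hqN
  have hNa : a ^ 2 ≤ N := by
    have : (q : ℝ) * a ^ 2 ≤ q * N := hX.trans hqN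
    exact le_of_mul_le_mul_left this hqR
  have hza : z * a ^ 2 ≤ 1 := by
    have h3 : (q : ℝ) / X ≤ 1 / a ^ 2 := by
      rw [div_le_div_iff₀ hX0 (by positivity)]
      linarith
    have h4 : (q : ℝ) / X ≤ 1 := h3.trans (by
      rw [div_le_one (by positivity)]; exact ha2)
    have h5 : z ≤ q / X := by
      rw [hz]
      exact pow_le_of_le_one (by positivity) h4 (by omega)
    calc z * a ^ 2 ≤ (1 / a ^ 2) * a ^ 2 :=
          mul_le_mul_of_nonneg_right (h5.trans h3) (by positivity)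
      _ = 1 := by field_simp
  have h10 : (a / 2) ^ 10 ≤ (N : ℝ) ^ g := by
    calc (a / 2) ^ 10 ≤ a ^ 10 := pow_le_pow_left₀ (by linarith) (by linarith) 10
      _ = (a ^ 2) ^ 5 := by ring
      _ ≤ (N : ℝ) ^ 5 := pow_le_pow_left₀ (by positivity) hNa 5
      _ ≤ (N : ℝ) ^ g := pow_le_pow_right₀ hNR (by omega)
  have h1 := hst N γ (a / 2) hN1 (by linarith) h10 (by
    intro q' c' hq' hq'R
    have hq'1 : (1 : ℝ) ≤ q' := by exact_mod_cast hq'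
    have hq'0 : (0 : ℝ) < q' := by linarith
    rcases eq_or_ne c' 0 with hc | hc
    · rw [hc, Int.cast_zero, sub_zero, abs_mul, abs_of_pos hq'0, hγz]
      have e : (q' : ℝ) * (|t| * z) * (N : ℝ) ^ (κ + 1) = q' * |t| * (z * (N : ℝ) ^ (κ + 1)) := by ring
      rw [e]
      have b1 : 1 * |t| ≤ q' * |t| := mul_le_mul_of_nonneg_right hq'1 (abs_nonneg _)
      have b2 : q' * |t| * 1 ≤ q' * |t| * (z * (N : ℝ) ^ (κ + 1)) :=
        mul_le_mul_of_nonneg_left hzN (by positivity)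
      linarith
    · have hc1 : (1 : ℝ) ≤ |(c' : ℝ)| := by
        have := Int.one_le_abs hc
        exact_mod_cast this
      have b1 : (q' : ℝ) * |γ| ≤ 5 / 8 := by
        rw [hγz]
        have b2 : |t| ≤ 5 / 4 * a := by linarith
        calc (q' : ℝ) * (|t| * z) ≤ (a / 2) * (5 / 4 * a * z) := by
              refine mul_le_mul hq'R (mul_le_mul_of_nonneg_right b2 hz0.le) (by positivity)
                (by positivity)
          _ = 5 / 8 * (z * a ^ 2) := by ring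
          _ ≤ 5 / 8 * 1 := mul_le_mul_of_nonneg_left hza (by norm_num)
          _ = 5 / 8 := by ring
      have b3 : (3 : ℝ) / 8 ≤ |(q' : ℝ) * γ - c'| := by
        have h2 : |(c' : ℝ)| ≤ |(q' : ℝ) * γ - c'| + |(q' : ℝ) * γ| := by
          have := abs_add_le ((c' : ℝ) - q' * γ) (q' * γ)
          rw [sub_add_cancel] at this
          rw [abs_sub_comm]
          exact this
        rw [abs_mul, abs_of_pos hq'0] at h2
        linarith
      have b4 : a ^ 2 ≤ (N : ℝ) ^ (κ + 1) := hNa.trans (le_self_pow₀ hNR (by omega))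
      have b5 : 4 * a ≤ a ^ 2 := by
        rw [sq]; exact mul_le_mul_of_nonneg_right ha ha0.le
      calc a / 2 < 3 / 8 * a ^ 2 := by linarith
        _ ≤ |(q' : ℝ) * γ - c'| * (N : ℝ) ^ (κ + 1) :=
          mul_le_mul b3 b4 (by positivity) (abs_nonneg _))
  have e : Dl (κ + 1) m N γ ^ (2 * (κ + 1)) * a ^ 5 =
      32 * (Dl (κ + 1) m N γ ^ (2 * (κ + 1)) * (a / 2) ^ 5) := by ring
  rw [e]
  linarith

/-- both bounds together, uniformly. -/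
lemma theta_bound'' (κ m g : ℕ) (hκ : 2 ≤ κ) (hg10 : 10 ≤ g) (C : ℝ) (hC : 1 ≤ C)
    (hst : Hs (κ + 1) m g C) (A : ℕ) (hA : 1 ≤ A) (CW : ℝ) (hCW : 1 ≤ CW) (hW : WH (κ + 1) A CW) :
    ∃ K : ℝ, 1 ≤ K ∧ ∀ τ : ℕ × ℤ × ℤ, 1 ≤ τ.1 →
      ∃ U : ℝ, 0 ≤ U ∧ (∀ d, 5 * A ≤ d → U ^ d * ((1 + τ.2.2.natAbs : ℕ) : ℝ) ^ 5 ≤ K) ∧
      (∀ J, τ.1 * (1 + τ.2.2.natAbs) ^ 2 ≤ 2 ^ J →
        Dl (κ + 1) m (Nq τ.1 (2 ^ J)) (bet (κ + 1) τ J * (τ.1 : ℝ) ^ (κ + 1)) ^ (2 * (κ + 1)) *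
          ((1 + τ.2.2.natAbs : ℕ) : ℝ) ^ 5 ≤ K) ∧
      (∀ J J', τ.1 * (1 + τ.2.2.natAbs) ^ 2 ≤ 2 ^ J → τ.1 * (1 + τ.2.2.natAbs) ^ 2 ≤ 2 ^ J' →
        J ≠ J' → ∀ h : ℤ,
        ‖gsum (κ + 1) (Nq τ.1 (2 ^ J)) (Nq τ.1 (2 ^ J')) (bet (κ + 1) τ J * (τ.1 : ℝ) ^ (κ + 1))
          (bet (κ + 1) τ J' * (τ.1 : ℝ) ^ (κ + 1)) h‖ ≤
          U * min (Nq τ.1 (2 ^ J) : ℝ) (Nq τ.1 (2 ^ J'))) := by
  have hg := gsum_cross' (κ + 1) (by omega) A CW hCW hW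
  obtain ⟨C1, hC1d⟩ : ∃ C1 : ℝ, C1 = 4 * CW := ⟨_, rfl⟩
  rw [← hC1d] at hg
  have hC1 : 1 ≤ C1 := by linarith
  refine ⟨(2 * C1) ^ 5 + 4 * (33 * C) + 1024 * 4 ^ (κ + 1), ?_, ?_⟩
  · have h1 : (1 : ℝ) ≤ 4 ^ (κ + 1) := one_le_pow₀ (by norm_num)
    have h2 : (0 : ℝ) ≤ (2 * C1) ^ 5 := by positivity
    linarith
  intro τ hq
  obtain ⟨q, c, i⟩ := τ
  simp only at hq ⊢
  have hC10 : 0 < C1 := by linarith
  have hK1 : (0 : ℝ) ≤ (2 * C1) ^ 5 := by positivity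
  have hK2 : (0 : ℝ) ≤ 4 * (33 * C) := by linarith
  have hK3 : (0 : ℝ) ≤ 1024 * 4 ^ (κ + 1) := by positivity
  have hqR1 : (1 : ℝ) ≤ q := by exact_mod_cast hq
  have hi1 : ((1 + i.natAbs : ℕ) : ℝ) = 1 + |(i : ℝ)| := by
    push_cast
    rw [Nat.cast_natAbs]; simp
  rcases lt_or_ge i.natAbs 4 with h4 | h4
  · have hle : ((1 + i.natAbs : ℕ) : ℝ) ^ 5 ≤ 1024 := by
      have : ((1 + i.natAbs : ℕ) : ℝ) ≤ 4 := by exact_mod_cast (by omega : 1 + i.natAbs ≤ 4)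
      calc ((1 + i.natAbs : ℕ) : ℝ) ^ 5 ≤ 4 ^ 5 := pow_le_pow_left₀ (Nat.cast_nonneg _) this 5
        _ = 1024 := by norm_num
    have h41 : (1 : ℝ) ≤ 4 ^ (κ + 1) := one_le_pow₀ (by norm_num)
    refine ⟨1, zero_le_one, ?_, ?_, ?_⟩
    · intro d _
      rw [one_pow, one_mul]
      have : (1024 : ℝ) * 1 ≤ 1024 * 4 ^ (κ + 1) := mul_le_mul_of_nonneg_left h41 (by norm_num)
      linarith
    · intro J _
      have hN := Nq_pos q (2 ^ J) hq Nat.one_le_two_pow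
      have h1 : Dl (κ + 1) m (Nq q (2 ^ J)) (bet (κ + 1) (q, c, i) J * (q : ℝ) ^ (κ + 1)) ^ (2 * (κ + 1)) ≤
          4 ^ (κ + 1) := by
        calc _ ≤ (2 : ℝ) ^ (2 * (κ + 1)) :=
              pow_le_pow_left₀ (Dl_nonneg _ _ _ _) (Dl_le_two _ _ _ _ hN) _
          _ = 4 ^ (κ + 1) := by rw [pow_mul]; norm_num
      calc _ ≤ (4 : ℝ) ^ (κ + 1) * 1024 := mul_le_mul h1 hle (by positivity) (by positivity)
        _ ≤ _ := by linarith
    · intro J J' _ _ _ h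
      rw [one_mul]
      exact norm_gsum_le _ _ _ _ _ _
  · obtain ⟨a, ha⟩ : ∃ a : ℝ, a = |(i : ℝ)| := ⟨_, rfl⟩
    have hnat : ((i.natAbs : ℕ) : ℝ) = a := by rw [ha, Nat.cast_natAbs]; simp
    have ha4 : 4 ≤ a := by rw [← hnat]; exact_mod_cast h4
    have ha0 : 0 < a := by linarith
    rw [← ha] at hi1
    have hscale : ∀ J, q * (1 + i.natAbs) ^ 2 ≤ 2 ^ J → (q : ℝ) * a ^ 2 ≤ ((2 ^ J : ℕ) : ℝ) := by
      intro J hJ
      have h1 : ((q * (1 + i.natAbs) ^ 2 : ℕ) : ℝ) ≤ ((2 ^ J : ℕ) : ℝ) := by exact_mod_cast hJ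
      refine le_trans ?_ h1
      rw [Nat.cast_mul, Nat.cast_pow, hi1]
      refine mul_le_mul_of_nonneg_left ?_ (by linarith)
      exact pow_le_pow_left₀ ha0.le (by linarith) 2
    have htb : ∀ J, |tt (κ + 1) (2 ^ J) (q, c, i)| ≤ a + 1 ∧ a - 1 ≤ |tt (κ + 1) (2 ^ J) (q, c, i)| := by
      intro J
      have h1 := abs_tt_sub (κ + 1) (2 ^ J) Nat.one_le_two_pow (q, c, i) hq
      simp only at h1
      constructor
      · have h2 := abs_add_le (tt (κ + 1) (2 ^ J) (q, c, i) - i) i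
        rw [sub_add_cancel, ← ha] at h2
        linarith
      · have h2 := abs_add_le ((i : ℝ) - tt (κ + 1) (2 ^ J) (q, c, i)) (tt (κ + 1) (2 ^ J) (q, c, i))
        rw [sub_add_cancel, ← ha, abs_sub_comm] at h2
        linarith
    have h1a : (1 + a) ≤ 5 / 4 * a := by linarith
    have h1a5 : (1 + a) ^ 5 ≤ 4 * a ^ 5 := by
      calc (1 + a) ^ 5 ≤ (5 / 4 * a) ^ 5 := pow_le_pow_left₀ (by linarith) h1a 5
        _ = (5 / 4) ^ 5 * a ^ 5 := by rw [mul_pow]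
        _ ≤ 4 * a ^ 5 := mul_le_mul_of_nonneg_right (by norm_num) (by positivity)
    obtain ⟨U0, hU00, hU0A⟩ : ∃ U0 : ℝ, 0 ≤ U0 ∧ U0 ^ A = C1 / a :=
      ⟨(C1 / a) ^ ((A : ℝ)⁻¹), by positivity, Real.rpow_inv_natCast_pow (by positivity) (by omega)⟩
    have hcr : ∀ J J', q * (1 + i.natAbs) ^ 2 ≤ 2 ^ J' → J' < J → ∀ h : ℤ,
        ‖gsum (κ + 1) (Nq q (2 ^ J)) (Nq q (2 ^ J')) (bet (κ + 1) (q, c, i) J * (q : ℝ) ^ (κ + 1))
          (bet (κ + 1) (q, c, i) J' * (q : ℝ) ^ (κ + 1)) h‖ ≤ min 1 U0 * Nq q (2 ^ J') := by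
      intro J J' hJ' hlt h
      have hN' := Nq_pos q (2 ^ J') hq Nat.one_le_two_pow
      have hN'R : (0 : ℝ) < Nq q (2 ^ J') := by exact_mod_cast hN'
      have h1 := hg q hq a ha4 (2 ^ J) (2 ^ J') (tt (κ + 1) (2 ^ J) (q, c, i))
        (tt (κ + 1) (2 ^ J') (q, c, i)) (htb J).1 (htb J').1 (htb J').2 (hscale J' hJ') (by
          calc 2 * 2 ^ J' = 2 ^ (J' + 1) := by rw [pow_succ]; ring
            _ ≤ 2 ^ J := Nat.pow_le_pow_right (by norm_num) hlt) h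
      have h2 := norm_gsum_le (κ + 1) (Nq q (2 ^ J)) (Nq q (2 ^ J'))
        (bet (κ + 1) (q, c, i) J * (q : ℝ) ^ (κ + 1)) (bet (κ + 1) (q, c, i) J' * (q : ℝ) ^ (κ + 1)) h
      have h1' : (‖gsum (κ + 1) (Nq q (2 ^ J)) (Nq q (2 ^ J')) (bet (κ + 1) (q, c, i) J * (q : ℝ) ^ (κ + 1))
          (bet (κ + 1) (q, c, i) J' * (q : ℝ) ^ (κ + 1)) h‖ / Nq q (2 ^ J')) ^ A * a ≤ C1 := h1
      obtain ⟨g, hgg⟩ : ∃ g, g = ‖gsum (κ + 1) (Nq q (2 ^ J)) (Nq q (2 ^ J')) (bet (κ + 1) (q, c, i) J * (q : ℝ) ^ (κ + 1))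
          (bet (κ + 1) (q, c, i) J' * (q : ℝ) ^ (κ + 1)) h‖ := ⟨_, rfl⟩
      rw [← hgg] at h1' h2 ⊢
      have hg0 : 0 ≤ g := by rw [hgg]; exact norm_nonneg _
      rw [← div_le_iff₀ hN'R]
      refine le_min ?_ ?_
      · rw [div_le_one hN'R]
        exact h2.trans (min_le_right _ _)
      · have h3 : (g / Nq q (2 ^ J')) ^ A ≤ U0 ^ A := by
          rw [hU0A, le_div_iff₀ ha0]
          exact h1'
        exact le_of_pow_le_pow_left₀ (by omega) hU00 h3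
    refine ⟨min 1 U0, le_min zero_le_one hU00, ?_, ?_, ?_⟩
    · intro d hd
      rw [hi1]
      have hm0 : 0 ≤ min 1 U0 := le_min zero_le_one hU00
      calc (min 1 U0) ^ d * (1 + a) ^ 5 ≤ (min 1 U0) ^ (5 * A) * (1 + a) ^ 5 := by
            refine mul_le_mul_of_nonneg_right ?_ (by positivity)
            exact pow_le_pow_of_le_one hm0 (min_le_left _ _) hd
        _ = ((min 1 U0) ^ A * (1 + a)) ^ 5 := by
            rw [mul_pow, ← pow_mul, mul_comm A 5]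
        _ ≤ (C1 / a * (5 / 4 * a)) ^ 5 := by
            refine pow_le_pow_left₀ (by positivity) ?_ 5
            refine mul_le_mul ?_ h1a (by linarith) (by positivity)
            rw [← hU0A]
            exact pow_le_pow_left₀ hm0 (min_le_right _ _) A
        _ = (5 / 4 * C1) ^ 5 := by congr 1; field_simp
        _ ≤ (2 * C1) ^ 5 := pow_le_pow_left₀ (by positivity) (by linarith) 5
        _ ≤ _ := by linarith
    · intro J hJ
      rw [hi1]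
      have h1 := dl_same'' κ m g hκ hg10 C hC hst q hq a ha4 (2 ^ J) (tt (κ + 1) (2 ^ J) (q, c, i))
        (htb J).1 (htb J).2 (hscale J hJ)
      have h1' : Dl (κ + 1) m (Nq q (2 ^ J)) (bet (κ + 1) (q, c, i) J * (q : ℝ) ^ (κ + 1)) ^ (2 * (κ + 1)) *
          a ^ 5 ≤ 33 * C := h1
      have h0 : 0 ≤ Dl (κ + 1) m (Nq q (2 ^ J)) (bet (κ + 1) (q, c, i) J * (q : ℝ) ^ (κ + 1)) ^ (2 * (κ + 1)) :=
        pow_nonneg (Dl_nonneg _ _ _ _) _
      have h2 := mul_le_mul_of_nonneg_left h1a5 h0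
      linarith
    · intro J J' hJ hJ' hne h
      rcases lt_or_gt_of_ne hne with hlt | hlt
      · rw [gsum_symm]
        refine (hcr J' J hJ hlt (-h)).trans ?_
        refine mul_le_mul_of_nonneg_left ?_ (le_min zero_le_one hU00)
        refine le_min le_rfl ?_
        have : Nq q (2 ^ J) ≤ Nq q (2 ^ J') := by
          unfold Nq
          refine Nat.div_le_div_right ?_
          have : 2 ^ J ≤ 2 ^ J' := Nat.pow_le_pow_right (by norm_num) hlt.le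
          omega
        exact_mod_cast this
      · refine (hcr J J' hJ' hlt h).trans ?_
        refine mul_le_mul_of_nonneg_left ?_ (le_min zero_le_one hU00)
        refine le_min ?_ le_rfl
        have : Nq q (2 ^ J') ≤ Nq q (2 ^ J) := by
          unfold Nq
          refine Nat.div_le_div_right ?_
          have : 2 ^ J' ≤ 2 ^ J := Nat.pow_le_pow_right (by norm_num) hlt.le
          omega
        exact_mod_cast this

/-- bound at rational points. -/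
lemma Dl_rat'' (κ m g : ℕ) (hκ : 2 ≤ κ) (hg : 10 ≤ g) (C : ℝ) (hC : 1 ≤ C)
    (hst : Hs (κ + 1) m g C)
    (q s : ℕ) (c : ℤ) (hq : 1 ≤ q) (hcop : IsCoprime c (q : ℤ)) (hs : q ≤ s) :
    Dl (κ + 1) m s ((c : ℝ) / q) ^ (2 * (κ + 1)) * (q : ℝ) ^ 5 ≤ 33 * C + 4 ^ (κ + 1) := by
  have hs1 : 1 ≤ s := hq.trans hs
  have hqR : (0 : ℝ) < q := by exact_mod_cast hq
  have hsR : (q : ℝ) ≤ s := by exact_mod_cast hs
  rcases hq.eq_or_lt with h1 | h1
  · rw [← h1, Nat.cast_one, one_pow, mul_one]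
    have : Dl (κ + 1) m s ((c : ℝ) / 1) ^ (2 * (κ + 1)) ≤ 4 ^ (κ + 1) := by
      calc _ ≤ (2 : ℝ) ^ (2 * (κ + 1)) :=
            pow_le_pow_left₀ (Dl_nonneg _ _ _ _) (Dl_le_two _ _ _ _ hs1) _
        _ = 4 ^ (κ + 1) := by rw [pow_mul]; norm_num
    linarith
  · have hq2 : (2 : ℝ) ≤ q := by exact_mod_cast h1
    have h10 : ((q : ℝ) / 2) ^ 10 ≤ (s : ℝ) ^ g := by
      have hs1R : (1 : ℝ) ≤ s := by exact_mod_cast hs1
      calc ((q : ℝ) / 2) ^ 10 ≤ (s : ℝ) ^ 10 := pow_le_pow_left₀ (by positivity) (by linarith) 10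
        _ ≤ (s : ℝ) ^ g := pow_le_pow_right₀ hs1R hg
    have hst1 := hst s ((c : ℝ) / q) ((q : ℝ) / 2) hs1 (by linarith) h10 (by
      intro q' c' hq' hq'R
      have hlt : q' < q := by
        have : (q' : ℝ) < q := by linarith
        exact_mod_cast this
      have hne : (q' : ℤ) * c - c' * q ≠ 0 := by
        intro h0
        have h2 : (q : ℤ) ∣ (q' : ℤ) * c := ⟨c', by linarith⟩
        have h3 : (q : ℤ) ∣ (q' : ℤ) := hcop.symm.dvd_of_dvd_mul_right h2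
        have h4 : q ∣ q' := by exact_mod_cast h3
        have := Nat.le_of_dvd (by omega) h4
        omega
      have h2 : (1 : ℝ) ≤ |(q' : ℝ) * c - c' * q| := by
        have := Int.one_le_abs hne
        exact_mod_cast this
      have h3 : |(q' : ℝ) * ((c : ℝ) / q) - c'| = |(q' : ℝ) * c - c' * q| / q := by
        rw [← abs_of_pos hqR, ← abs_div, abs_of_pos hqR]
        congr 1
        field_simp
      rw [h3]
      have h4 : (q : ℝ) ^ 3 ≤ (s : ℝ) ^ (κ + 1) := by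
        calc (q : ℝ) ^ 3 ≤ (s : ℝ) ^ 3 := pow_le_pow_left₀ hqR.le hsR 3
          _ ≤ (s : ℝ) ^ (κ + 1) := pow_le_pow_right₀ (by linarith) (by omega)
      calc (q : ℝ) / 2 < 1 / q * q ^ 3 := by
            have : 1 / (q : ℝ) * q ^ 3 = q * q := by field_simp
            rw [this]
            have : (q : ℝ) * 1 ≤ q * q := mul_le_mul_of_nonneg_left (by linarith) hqR.le
            linarith
        _ ≤ |(q' : ℝ) * c - c' * q| / q * (s : ℝ) ^ (κ + 1) := by gcongr)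
    have h8 : (0 : ℝ) ≤ 4 ^ (κ + 1) := by positivity
    have e : Dl (κ + 1) m s ((c : ℝ) / q) ^ (2 * (κ + 1)) * (q : ℝ) ^ 5 =
        32 * (Dl (κ + 1) m s ((c : ℝ) / q) ^ (2 * (κ + 1)) * ((q : ℝ) / 2) ^ 5) := by ring
    rw [e]
    linarith

end Pool.Agent.helper132_quad
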