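import Pool.Agent.helper132_poly.N3

/-! Every residue class is a sum of `2 k ^ 2` powers. -/

namespace Pool.Agent.helper132_quad

open Finset Pool.Agent.helper132_poly

lemma one_add_pow_dvd (b : ℤ) (n : ℕ) : b ^ 2 ∣ (1 + b) ^ n - 1 - n * b := by
  induction n with
  | zero => simp
  | succ n ih =>
    have e : (1 + b) ^ (n + 1) - 1 - ((n + 1 : ℕ) : ℤ) * b =
        (1 + b) * ((1 + b) ^ n - 1 - n * b) + n * b ^ 2 := by push_cast; ring
    rw [e]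
    exact dvd_add (ih.mul_left _) (Dvd.intro_left _ rfl)

lemma lift_root (p k τ k' : ℕ) (hp : p.Prime) (hp2 : p ≠ 2) (hk : k = p ^ τ * k') (hk' : ¬ p ∣ k')
    (c : ℤ) (hc : (p : ℤ) ^ (τ + 1) ∣ 1 - c) (w : ℕ) :
    ∃ z : ℤ, (p : ℤ) ∣ z - 1 ∧ (p : ℤ) ^ (τ + 1 + w) ∣ z ^ k - c := by
  have hp3 : 3 ≤ p := by
    have := hp.two_le
    omega
  induction w with
  | zero =>
    refine ⟨1, by simp, ?_⟩
    rw [add_zero, one_pow]; exact hc
  | succ w ih =>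
    obtain ⟨z, hz1, e, he⟩ := ih
    have hpz : Prime (p : ℤ) := Nat.prime_iff_prime_int.1 hp
    have hzp : ¬ (p : ℤ) ∣ z := by
      intro h
      have h1 : (p : ℤ) ∣ 1 := by
        have := dvd_sub h hz1
        rwa [sub_sub_cancel] at this
      have h2 : (p : ℤ) ≤ 1 := Int.le_of_dvd one_pos h1
      have h3 : (3 : ℤ) ≤ p := by exact_mod_cast hp3
      linarith
    have hcop : IsCoprime (z ^ k * k' : ℤ) (p : ℤ) := by
      refine IsCoprime.symm ?_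
      refine (Prime.coprime_iff_not_dvd hpz).2 ?_
      intro h
      rcases hpz.dvd_or_dvd h with h1 | h1
      · exact hzp (hpz.dvd_of_dvd_pow h1)
      · exact hk' (by exact_mod_cast h1)
    obtain ⟨a, b, hab⟩ := hcop
    obtain ⟨W, hW⟩ : ∃ W, W = w + 1 := ⟨_, rfl⟩
    obtain ⟨v, hv⟩ : ∃ v, v = τ + 1 + w := ⟨_, rfl⟩
    rw [← hv] at he
    obtain ⟨x, hx⟩ : ∃ x : ℤ, x = -(e * a) := ⟨_, rfl⟩
    obtain ⟨y, hy⟩ := ZMod.exists_one_add_mul_pow_prime_pow_eq (R := ℤ) (u := (p : ℤ) ^ W) (v := (p : ℤ)) hp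
      (dvd_pow_self _ (by omega)) (by
        rw [← pow_succ', ← pow_succ, ← pow_mul]
        refine pow_dvd_pow _ ?_
        have : W * 3 ≤ W * p := Nat.mul_le_mul_left _ hp3
        omega) x τ
    obtain ⟨B, hB⟩ : ∃ B : ℤ, B = (p : ℤ) ^ v * (x + p * y) := ⟨_, rfl⟩
    have hpv : (p : ℤ) ^ τ * (p : ℤ) ^ W = (p : ℤ) ^ v := by
      rw [← pow_add]; congr 1; omega
    rw [hpv, ← hB] at hy
    obtain ⟨s, hs⟩ := one_add_pow_dvd B k'
    refine ⟨z * (1 + (p : ℤ) ^ W * x), ?_, ?_⟩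
    · have e1 : z * (1 + (p : ℤ) ^ W * x) - 1 = (z - 1) * (1 + (p : ℤ) ^ W * x) + (p : ℤ) ^ W * x := by ring
      rw [e1]
      refine dvd_add (hz1.mul_right _) (Dvd.dvd.mul_right (dvd_pow_self _ (by omega)) _)
    · have e2 : (z * (1 + (p : ℤ) ^ W * x)) ^ k = z ^ k * (1 + B) ^ k' := by
        rw [mul_pow]
        congr 1
        rw [← hy, ← pow_mul, ← hk]
      have e3 : (1 + B) ^ k' = 1 + k' * B + B ^ 2 * s := by linarith
      have e4 : v = W + τ := by omega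
      obtain ⟨v', hv'⟩ : ∃ v', v = v' + 1 := ⟨v - 1, by omega⟩
      have e5 : τ + 1 + (w + 1) = v + 1 := by omega
      rw [e2, e3, e5]
      refine ⟨e * b + z ^ k * k' * y + z ^ k * (x + p * y) ^ 2 * s * (p : ℤ) ^ v', ?_⟩
      have e6 : z ^ k - c = (p : ℤ) ^ v * e := he
      have e7 : c = z ^ k - (p : ℤ) ^ v * e := by linarith
      have e8 : (p : ℤ) ^ v = (p : ℤ) ^ v' * p := by rw [hv', pow_succ]
      have e9 : e + z ^ k * k' * x = e * b * p := by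
        rw [hx]
        have : e * 1 = e * (a * (z ^ k * k') + b * p) := by rw [hab]
        linarith
      calc z ^ k * (1 + k' * B + B ^ 2 * s) - c
          = (p : ℤ) ^ v * (e + z ^ k * k' * x) + (p : ℤ) ^ v * (p * (z ^ k * k' * y)) +
            (p : ℤ) ^ v * ((p : ℤ) ^ v * (z ^ k * (x + p * y) ^ 2 * s)) := by
            rw [e7, hB]; ring
        _ = (p : ℤ) ^ v * (e * b * p) + (p : ℤ) ^ v * (p * (z ^ k * k' * y)) +
            (p : ℤ) ^ v * (((p : ℤ) ^ v' * p) * (z ^ k * (x + p * y) ^ 2 * s)) := by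
            rw [e9, ← e8]
        _ = _ := by rw [pow_succ (p : ℤ) v]; ring

lemma LSR_ones (k T N : ℕ) (hk : 1 ≤ k) (hN1 : 1 ≤ N) (hN : N ≤ T + 1) : LSR k T N := by
  intro c
  obtain ⟨j, hj⟩ : ∃ j : ℕ, (j : ℤ) = c % N := ⟨(c % N).toNat, Int.toNat_of_nonneg (Int.emod_nonneg _ (by omega))⟩
  have hjN : j < N := by
    have : (j : ℤ) < N := by rw [hj]; exact Int.emod_lt_of_pos _ (by omega)
    exact_mod_cast this
  refine ⟨fun i => if i < j then 1 else 0, ?_⟩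
  have h3 : ∑ i ∈ range T, (((if i < j then 1 else 0 : ℕ)) : ℤ) ^ k = j := by
    have h4 : ∀ i ∈ range T, (((if i < j then 1 else 0 : ℕ)) : ℤ) ^ k =
        if i < j then 1 else 0 := by
      intro i _
      split_ifs
      · simp
      · simp only [Nat.cast_zero]; exact zero_pow (by omega)
    rw [Finset.sum_congr rfl h4, ← Finset.sum_filter, Finset.sum_const]
    have h5 : (range T).filter (fun i => i < j) = range j := by
      ext i
      rw [Finset.mem_filter, Finset.mem_range, Finset.mem_range]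
      constructor
      · exact fun h => h.2
      · intro h; exact ⟨by omega, h⟩
    rw [h5, Finset.card_range]
    simp
  rw [h3, hj]
  exact Int.dvd_self_sub_emod

lemma LSR_hensel (p k v T : ℕ) [hp : Fact p.Prime] (hk : 2 ≤ k)
    (hbase : LSR k T (p ^ (2 * padicValNat p k + 1))) : LSR k (T + 1) (p ^ v) := by
  intro c
  obtain ⟨ρ, hρ⟩ := hbase (c - 1)
  obtain ⟨σ, hσ⟩ : ∃ σ : ℤ, σ = ∑ i ∈ range T, ((ρ i : ℕ) : ℤ) ^ k := ⟨_, rfl⟩
  rw [← hσ] at hρ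
  obtain ⟨τ, hτ⟩ : ∃ τ, τ = padicValNat p k := ⟨_, rfl⟩
  rw [← hτ] at hρ
  have hpR : (1 : ℝ) < p := by exact_mod_cast hp.out.one_lt
  have hpR0 : (0 : ℝ) < p := by linarith
  have hnorm1 : ‖(1 : ℤ_[p]) - ((c - σ : ℤ) : ℤ_[p])‖ ≤ (p : ℝ) ^ (-((2 * τ + 1 : ℕ) : ℤ)) := by
    have e : (1 : ℤ_[p]) - ((c - σ : ℤ) : ℤ_[p]) = ((1 - (c - σ) : ℤ) : ℤ_[p]) := by push_cast; ring
    rw [e, PadicInt.norm_int_le_pow_iff_dvd]
    have e2 : 1 - (c - σ) = -(c - 1 - σ) := by ring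
    rw [e2, dvd_neg]
    exact_mod_cast hρ
  have hnormk : ‖(k : ℤ_[p])‖ = (p : ℝ) ^ (-(τ : ℤ)) := by
    have h1 : ‖(k : ℤ_[p])‖ = ‖((k : ℕ) : ℚ_[p])‖ := by
      rw [PadicInt.norm_def]; simp
    rw [h1, Padic.norm_eq_zpow_neg_valuation (by
      have : (k : ℕ) ≠ 0 := by omega
      exact_mod_cast this), Padic.valuation_natCast, hτ]
  obtain ⟨z, hz⟩ := hensel_root p k ((c - σ : ℤ) : ℤ_[p]) (by
    refine lt_of_le_of_lt hnorm1 ?_
    rw [hnormk, ← zpow_natCast, ← zpow_mul]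
    refine zpow_lt_zpow_right₀ hpR ?_
    push_cast
    linarith)
  refine ⟨fun i => if i = T then (PadicInt.toZModPow v z).val else ρ i, ?_⟩
  have h1 : ∑ i ∈ range (T + 1), (((if i = T then (PadicInt.toZModPow v z).val else ρ i : ℕ)) : ℤ) ^ k
      = σ + (((PadicInt.toZModPow v z).val : ℕ) : ℤ) ^ k := by
    rw [hσ, Finset.sum_range_succ, if_pos rfl]
    congr 1
    refine Finset.sum_congr rfl fun i hi => ?_
    rw [Finset.mem_range] at hi
    rw [if_neg (by omega)]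
  rw [h1, ← ZMod.intCast_zmod_eq_zero_iff_dvd]
  have h2 : (PadicInt.toZModPow v z) ^ k = (((c - σ : ℤ)) : ZMod (p ^ v)) := by
    rw [← map_pow, hz, map_intCast]
  have : NeZero (p ^ v) := ⟨(pow_pos hp.out.pos v).ne'⟩
  have h3 : (((PadicInt.toZModPow v z).val : ℕ) : ZMod (p ^ v)) = PadicInt.toZModPow v z :=
    ZMod.natCast_zmod_val _
  push_cast
  rw [h3, h2]
  push_cast
  ring

lemma LSR_odd (p k v : ℕ) [hp : Fact p.Prime] (hp2 : p ≠ 2) (hk : 2 ≤ k) : LSR k (k ^ 2) (p ^ v) := by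
  obtain ⟨τ, k', hk', hkk⟩ := Nat.exists_eq_pow_mul_and_not_dvd (n := k) (by omega) p hp.out.ne_one
  have hk'0 : 1 ≤ k' := by
    rcases Nat.eq_zero_or_pos k' with h | h
    · rw [h, mul_zero] at hkk; omega
    · exact h
  have hk2 : 2 * k ≤ k ^ 2 := by rw [sq]; exact Nat.mul_le_mul_right _ hk
  have hbase : LSR k (k ^ 2 - 1) (p ^ (τ + 1)) := by
    rcases Nat.eq_zero_or_pos τ with h0 | h0
    · rw [h0, zero_add, pow_one]
      exact (sum_powers_prime p k (by omega)).mono (by omega) (by omega)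
    · refine LSR_ones k _ _ (by omega) (Nat.one_le_pow _ _ hp.out.pos) ?_
      have h1 : p ^ τ ≤ k := by
        rw [hkk]; exact Nat.le_mul_of_pos_right _ hk'0
      have h2 : p ≤ k := (Nat.le_self_pow (by omega) p).trans h1
      have h3 : p ^ (τ + 1) ≤ k * k := by rw [pow_succ]; exact Nat.mul_le_mul h1 h2
      have h4 : k * k = k ^ 2 := (sq k).symm
      omega
  intro c
  obtain ⟨ρ, hρ⟩ := hbase (c - 1)
  obtain ⟨σ, hσ⟩ : ∃ σ : ℤ, σ = ∑ i ∈ range (k ^ 2 - 1), ((ρ i : ℕ) : ℤ) ^ k := ⟨_, rfl⟩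
  rw [← hσ] at hρ
  obtain ⟨z, _, hz⟩ := lift_root p k τ k' hp.out hp2 hkk hk' (c - σ) (by
    have e : 1 - (c - σ) = -(c - 1 - σ) := by ring
    rw [e, dvd_neg]
    exact_mod_cast hρ) v
  have hz' : (p : ℤ) ^ v ∣ z ^ k - (c - σ) := (pow_dvd_pow _ (by omega)).trans hz
  have hpv : (0 : ℤ) < (p : ℤ) ^ v := by
    have : (0 : ℤ) < p := by exact_mod_cast hp.out.pos
    positivity
  obtain ⟨r, hr⟩ : ∃ r : ℕ, (r : ℤ) = z % (p : ℤ) ^ v :=
    ⟨(z % (p : ℤ) ^ v).toNat, Int.toNat_of_nonneg (Int.emod_nonneg _ hpv.ne')⟩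
  have hrz : (p : ℤ) ^ v ∣ z - r := by rw [hr]; exact Int.dvd_self_sub_emod
  refine ⟨fun i => if i = k ^ 2 - 1 then r else ρ i, ?_⟩
  have h1 : ∑ i ∈ range (k ^ 2), (((if i = k ^ 2 - 1 then r else ρ i : ℕ)) : ℤ) ^ k
      = σ + (r : ℤ) ^ k := by
    obtain ⟨K, hK⟩ : ∃ K, k ^ 2 = K + 1 := ⟨k ^ 2 - 1, by omega⟩
    rw [hσ, hK, Nat.add_sub_cancel, Finset.sum_range_succ, if_pos rfl]
    congr 1
    refine Finset.sum_congr rfl fun i hi => ?_
    rw [Finset.mem_range] at hi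
    rw [if_neg (by omega)]
  rw [h1]
  have h2 : (p : ℤ) ^ v ∣ z ^ k - (r : ℤ) ^ k := hrz.trans (sub_dvd_pow_sub_pow _ _ _)
  have h3 := dvd_sub h2 hz'
  have e : z ^ k - (r : ℤ) ^ k - (z ^ k - (c - σ)) = c - (σ + (r : ℤ) ^ k) := by ring
  rw [e] at h3
  exact_mod_cast h3

lemma LSR_two (k v : ℕ) (hk : 2 ≤ k) : LSR k (2 * k ^ 2) (2 ^ v) := by
  have : Fact (Nat.Prime 2) := ⟨Nat.prime_two⟩
  have hk2 : 1 ≤ k ^ 2 := Nat.one_le_pow _ _ (by omega)
  obtain ⟨T, hT⟩ : ∃ T, 2 * k ^ 2 = T + 1 := ⟨2 * k ^ 2 - 1, by omega⟩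
  rw [hT]
  refine LSR_hensel 2 k v T hk (LSR_ones k _ _ (by omega) (Nat.one_le_pow _ _ (by norm_num)) ?_)
  rw [← hT]
  have h1 : 2 ^ padicValNat 2 k ≤ k := Nat.le_of_dvd (by omega) pow_padicValNat_dvd
  calc 2 ^ (2 * padicValNat 2 k + 1) = 2 * (2 ^ padicValNat 2 k) ^ 2 := by
        rw [pow_succ, mul_comm 2 (padicValNat 2 k), pow_mul]; ring
    _ ≤ 2 * k ^ 2 := Nat.mul_le_mul_left _ (Nat.pow_le_pow_left h1 2)

theorem local_solv' (k : ℕ) (hk : 2 ≤ k) : ∀ W : ℕ, 1 ≤ W → LSR k (2 * k ^ 2) W := by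
  intro W
  induction W using Nat.recOnPosPrimePosCoprime with
  | prime_pow p n hp hn =>
    intro _
    have : Fact p.Prime := ⟨hp⟩
    by_cases hp2 : p = 2
    · subst hp2; exact LSR_two k n hk
    · exact (LSR_odd p k n hp2 hk).mono (by omega) (by omega)
  | zero => intro h; omega
  | one =>
    intro _ c
    exact ⟨fun _ => 0, by simp⟩
  | coprime a b ha hb hab iha ihb =>
    intro _
    exact LSR_mul hab (iha (by omega)) (ihb (by omega))

end Pool.Agent.helper132_quad
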