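import Pool.Agent.helper132_quad.R2
import Pool.Agent.helper132_quad.R3
import Pool.Agent.helper132_poly.N4

/-! Lower bound for the number of lattice points. -/

namespace Pool.Agent.helper132_quad

open Finset Pool.Agent.helper132_sph Pool.Agent.helper132_poly

/-- lower bound for the number of representations, explicit dimension. -/
theorem sphere_lower'' (k A s' s0 : ℕ) (hk : 3 ≤ k) (C : ℝ) (hC : 1 ≤ C) (hWH : WH k A C)
    (hs' : 1 ≤ s') (η CJ : ℝ) (hη : η ≤ 1) (hCJ : 1 ≤ CJ) (hJ : MVT k s' η CJ)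
    (h3A : 3 * A ≤ s0) (hAs : A + 2 * s' ≤ s0) (d : ℕ)
    (hd : s0 + 2 + 2 * k ^ 2 ≤ d) : ∃ c : ℝ, 0 < c ∧
    ∀ (n : ℕ) (r : ℝ), 0 < r → r ^ k = n →
      c * r ^ (d - k) ≤ max 1 (((Rp k d n).card : ℕ) : ℝ) := by
  obtain ⟨s, hsA⟩ : ∃ s, s = s0 + 1 := ⟨_, rfl⟩
  have hs : 1 ≤ s := by omega
  obtain ⟨W, X1, δ, hW1, hX1, hδ0, hδ1, hint⟩ := interval_lemma'' k A s' s0 hk C hC hWH hs' η CJ hη hCJ hJ h3A hAs s hsA
  have hkR : (0 : ℝ) < k := by exact_mod_cast (by omega : 0 < k)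
  have hsR : (0 : ℝ) < s := by exact_mod_cast (by omega : 0 < s)
  have hWR1 : (1 : ℝ) ≤ W := by exact_mod_cast hW1
  have hWR : (0 : ℝ) < W := by linarith
  have hkk : k ≤ k ^ 2 := Nat.le_self_pow (by norm_num) k
  have hdk : k ≤ d := by omega
  have hds : s + 1 + 2 * k ^ 2 ≤ d := by omega
  obtain ⟨j, hj⟩ : ∃ j, j = d - s - 1 := ⟨_, rfl⟩
  have hjk : 2 * k ^ 2 ≤ j := by omega
  have hjd : s + 1 + j = d := by omega
  obtain ⟨B, hB⟩ : ∃ B : ℕ, B = d * 2 ^ k := ⟨_, rfl⟩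
  have hB1 : 1 ≤ B := by rw [hB]; exact Nat.mul_pos (by omega) (by positivity)
  have hBR : (1 : ℝ) ≤ B := by exact_mod_cast hB1
  have hdB : d ≤ B := by rw [hB]; exact Nat.le_mul_of_pos_right _ (by positivity)
  obtain ⟨v, hv⟩ : ∃ v : ℝ, v = δ / (k * W * ((B : ℝ) + 1) ^ (k - 1)) := ⟨_, rfl⟩
  have hv0 : 0 < v := by rw [hv]; positivity
  have hden1 : (1 : ℝ) ≤ k * ((B : ℝ) + 1) ^ (k - 1) := by
    have h1 : (1 : ℝ) ≤ k := by exact_mod_cast (by omega : 1 ≤ k)
    have h2 : (1 : ℝ) ≤ ((B : ℝ) + 1) ^ (k - 1) := one_le_pow₀ (by linarith)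
    calc (1 : ℝ) = 1 * 1 := by ring
      _ ≤ _ := mul_le_mul h1 h2 zero_le_one (by positivity)
  have hvW : v * W ≤ 1 := by
    have e : v * W = δ / (k * ((B : ℝ) + 1) ^ (k - 1)) := by rw [hv]; field_simp
    rw [e, div_le_one (by positivity)]
    linarith
  obtain ⟨X2, hX2⟩ := exists_nat_ge (max (max (X1 : ℝ) (2 / v)) (2 * W))
  have hX2a : X1 ≤ X2 := by exact_mod_cast (le_max_left _ _).trans ((le_max_left _ _).trans hX2)
  have hX2b : 2 / v ≤ X2 := (le_max_right _ _).trans ((le_max_left _ _).trans hX2)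
  have hX2c : 2 * (W : ℝ) ≤ X2 := (le_max_right _ _).trans hX2
  have hX21 : 1 ≤ X2 := hX1.trans hX2a
  obtain ⟨c1, hc1⟩ : ∃ c1 : ℝ, c1 = v / (4 * s * (2 * W) ^ j) := ⟨_, rfl⟩
  have hc10 : 0 < c1 := by rw [hc1]; positivity
  have hdX2 : (0 : ℝ) < (((d * X2 : ℕ)) : ℝ) := by
    exact_mod_cast Nat.mul_pos (by omega) hX21
  refine ⟨min (c1 / (B : ℝ) ^ (d - k)) (1 / (((d * X2 : ℕ)) : ℝ) ^ (d - k)),
    lt_min (by positivity) (by positivity), ?_⟩
  intro n r hr hrn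
  have hrk0 : 0 ≤ r ^ (d - k) := by positivity
  rcases lt_or_ge n (d * X2 ^ k) with hcase | hcase
  · refine le_trans ?_ (le_max_left _ _)
    refine (mul_le_mul_of_nonneg_right (min_le_right _ _) hrk0).trans ?_
    rw [one_div, inv_mul_le_iff₀ (by positivity), mul_one]
    refine pow_le_pow_left₀ hr.le ?_ _
    refine le_of_pow_le_pow_left₀ (n := k) (by omega) hdX2.le ?_
    rw [hrn]
    have : n ≤ (d * X2) ^ k := by
      calc n ≤ d * X2 ^ k := hcase.le
        _ ≤ d ^ k * X2 ^ k := Nat.mul_le_mul_right _ (Nat.le_self_pow (by omega) _)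
        _ = (d * X2) ^ k := (Nat.mul_pow _ _ _).symm
    exact_mod_cast this
  · refine le_trans ?_ (le_max_right _ _)
    obtain ⟨X, hXa, hXb⟩ := exists_root k (n / d) (by omega)
    have hd0 : 0 < d := by omega
    have hXa' : d * X ^ k ≤ n := by
      calc d * X ^ k ≤ d * (n / d) := Nat.mul_le_mul_left _ hXa
        _ ≤ n := Nat.mul_div_le _ _
    have hX2X : X2 ≤ X := by
      by_contra hlt
      push Not at hlt
      have h1 : X2 ^ k ≤ n / d := by
        rw [Nat.le_div_iff_mul_le hd0, mul_comm]; exact hcase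
      have h2 : (X + 1) ^ k ≤ X2 ^ k := Nat.pow_le_pow_left hlt k
      omega
    have hX1' : 1 ≤ X := hX21.trans hX2X
    have hXR : (1 : ℝ) ≤ X := by exact_mod_cast hX1'
    have hX0 : (0 : ℝ) < X := by linarith
    have hX2XR : (X2 : ℝ) ≤ X := by exact_mod_cast hX2X
    have hnB : n ≤ B * X ^ k := by
      have h1 : n < d * (X + 1) ^ k := by
        rw [mul_comm, ← Nat.div_lt_iff_lt_mul hd0]
        exact hXb
      have h2 : (X + 1) ^ k ≤ (2 * X) ^ k := Nat.pow_le_pow_left (by omega) k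
      calc n ≤ d * (X + 1) ^ k := h1.le
        _ ≤ d * (2 * X) ^ k := Nat.mul_le_mul_left _ h2
        _ = B * X ^ k := by rw [hB, Nat.mul_pow]; ring
    obtain ⟨n0, hn0, hn0i⟩ := hint X (hX2a.trans hX2X)
    obtain ⟨T1, hT1⟩ : ∃ T1 : ℕ, T1 = ⌊v * X⌋₊ := ⟨_, rfl⟩
    have hvX : 2 ≤ v * X := by
      have h1 : 2 / v ≤ (X : ℝ) := hX2b.trans hX2XR
      rw [div_le_iff₀ hv0] at h1
      linarith
    have hT1a : (T1 : ℝ) ≤ v * X := by rw [hT1]; exact Nat.floor_le (by positivity)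
    have hT1b : v * X / 2 ≤ T1 := by
      have : v * X < T1 + 1 := by rw [hT1]; exact Nat.lt_floor_add_one _
      linarith
    have hT1X : T1 * W ≤ X := by
      have h1 : ((T1 * W : ℕ) : ℝ) ≤ X := by
        push_cast
        calc (T1 : ℝ) * W ≤ (v * X) * W := mul_le_mul_of_nonneg_right hT1a hWR.le
          _ = (v * W) * X := by ring
          _ ≤ 1 * X := mul_le_mul_of_nonneg_right hvW hX0.le
          _ = X := one_mul _
      exact_mod_cast h1
    have hT2 : (k : ℝ) * ((T1 * W : ℕ) : ℝ) * ((B : ℝ) + 1) ^ (k - 1) ≤ δ * X := by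
      push_cast
      calc (k : ℝ) * ((T1 : ℝ) * W) * ((B : ℝ) + 1) ^ (k - 1) = (k * W * ((B : ℝ) + 1) ^ (k - 1)) * T1 := by ring
        _ ≤ (k * W * ((B : ℝ) + 1) ^ (k - 1)) * (v * X) := mul_le_mul_of_nonneg_left hT1a (by positivity)
        _ = δ * X := by rw [hv]; field_simp
    have hst := step_two' k X s B T1 W n0 (by omega) hW1 (fun n' hn1 hn2 hn3 =>
      step_one' k X s n' n0 B T1 W δ (by omega) hX1' hW1 hn0 hn0i hn1 hn2 hn3 hT1X hT2) j n
      (by rw [hjd]; exact hXa') hnB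
      ((local_solv' k (by omega) W hW1).mono (by omega) hjk ((n : ℤ) - n0))
    rw [hjd] at hst
    have hY : (X : ℝ) / (2 * W) ≤ ((X / W : ℕ) : ℝ) := by
      have h1 := Nat.lt_div_mul_add (a := X) (b := W) (by omega)
      have h2 : (X : ℝ) < ((X / W : ℕ) : ℝ) * W + W := by exact_mod_cast h1
      rw [div_le_iff₀ (by positivity)]
      have h3 : 2 * (W : ℝ) ≤ X := hX2c.trans hX2XR
      have h4 : ((X / W : ℕ) : ℝ) * (2 * W) = 2 * (((X / W : ℕ) : ℝ) * W) := by ring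
      rw [h4]
      linarith
    -- conclude
    have h1 : c1 * (X : ℝ) ^ (d - k) ≤ (Rp k d n).card := by
      have h2 : (v * X / 2) * (X : ℝ) ^ s * ((X : ℝ) / (2 * W)) ^ j ≤
          2 * s * (X : ℝ) ^ k * (Rp k d n).card := by
        refine le_trans ?_ hst
        gcongr
      have h3 : (v * X / 2) * (X : ℝ) ^ s * ((X : ℝ) / (2 * W)) ^ j =
          (c1 * (X : ℝ) ^ (d - k)) * (2 * s * (X : ℝ) ^ k) := by
        have h4 : (X : ℝ) * (X : ℝ) ^ s * (X : ℝ) ^ j = (X : ℝ) ^ (d - k) * (X : ℝ) ^ k := by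
          rw [← pow_succ', ← pow_add, ← pow_add]; congr 1; omega
        calc (v * X / 2) * (X : ℝ) ^ s * ((X : ℝ) / (2 * W)) ^ j
            = (v / 2 / (2 * W) ^ j) * ((X : ℝ) * (X : ℝ) ^ s * (X : ℝ) ^ j) := by
              rw [div_pow]; field_simp
          _ = (v / 2 / (2 * W) ^ j) * ((X : ℝ) ^ (d - k) * (X : ℝ) ^ k) := by rw [h4]
          _ = _ := by rw [hc1]; field_simp; ring
      rw [h3] at h2
      have h5 : (0 : ℝ) < 2 * s * (X : ℝ) ^ k := by positivity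
      refine le_of_mul_le_mul_right ?_ h5
      linarith
    refine le_trans ?_ h1
    refine (mul_le_mul_of_nonneg_right (min_le_left _ _) hrk0).trans ?_
    have h6 : r ≤ B * X := by
      refine le_of_pow_le_pow_left₀ (n := k) (by omega) (by positivity) ?_
      rw [hrn]
      have : n ≤ (B * X) ^ k := by
        calc n ≤ B * X ^ k := hnB
          _ ≤ B ^ k * X ^ k := Nat.mul_le_mul_right _ (Nat.le_self_pow (by omega) _)
          _ = (B * X) ^ k := (Nat.mul_pow _ _ _).symm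
      exact_mod_cast this
    calc c1 / (B : ℝ) ^ (d - k) * r ^ (d - k) ≤ c1 / (B : ℝ) ^ (d - k) * (B * X) ^ (d - k) := by
          refine mul_le_mul_of_nonneg_left ?_ (by positivity)
          exact pow_le_pow_left₀ hr.le h6 _
      _ = c1 * (X : ℝ) ^ (d - k) := by rw [mul_pow]; field_simp

end Pool.Agent.helper132_quad
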