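import Pool.Agent.helper132_quad.R5
import Pool.Agent.helper132_poly.F2

/-! The endpoint bound from mean value estimates. -/

namespace Pool.Agent.helper132_quad

open Finset Pool.Agent.helper132_sph Pool.Agent.helper132_poly
open scoped ENNReal NNReal

lemma Hs.anti {k m m' g : ℕ} {C : ℝ} (h : Hs k m g C) (hm : m ≤ m') : Hs k m' g C := by
  intro X α R hX hR1 hRX hmin
  refine le_trans ?_ (h X α R hX hR1 hRX hmin)
  have hR0 : 0 ≤ R := by linarith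
  refine mul_le_mul_of_nonneg_right ?_ (by positivity)
  exact pow_le_pow_left₀ (Dl_nonneg _ _ _ _) (Dl_anti k m m' X α hX hm) _

/-- The endpoint bound, given mean value and Weyl type estimates. -/
theorem endpoint_abs (κ M s m t A' A s' s0 g : ℕ) (hκ : 2 ≤ κ) (hM : 1 ≤ M)
    (C1 : ℝ) (hC1 : 1 ≤ C1) (hS1 : S1H κ M C1)
    (hs : 1 ≤ s) (hs2 : κ ≤ 2 * s) (η CJ : ℝ) (hη0 : 0 ≤ η) (hη : η ≤ 1 / 12) (hCJ : 1 ≤ CJ)
    (hJ : MVT κ s η CJ) (hA' : 1 ≤ A') (K' : ℝ) (hK' : 1 ≤ K') (hW' : WH κ A' K')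
    (hg10 : 10 ≤ g) (hg20 : g ≤ 20) (hm : 1 ≤ m) (h1 : 3 * g * M ≤ 11 * (κ + 1) * min m M)
    (ht : 250 * A' ≤ 12 * (g - 10) * t) (hmE : 2 * s + t ≤ m * (κ + 2))
    (hA : 24 * M ≤ 11 * A) (hAκ : κ + 1 ≤ A)
    (hs' : 1 ≤ s') (η' CJ' : ℝ) (hη' : η' ≤ 1) (hCJ' : 1 ≤ CJ') (hJ' : MVT (κ + 1) s' η' CJ')
    (h3A : 3 * A ≤ s0) (hAs : A + 2 * s' ≤ s0)
    (d : ℕ) (hd2 : m * (2 * (κ + 1) + 2) + 1 ≤ d) (hdA : 5 * A ≤ d)
    (hdN : s0 + 2 + 2 * (κ + 1) ^ 2 ≤ d) :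
    ∃ C : ℝ≥0, ∀ f : (Fin d → ℤ) → ℂ,
      weakNorm ((d : ℝ) / (d - ((κ + 1 : ℕ) : ℝ))) (sphMax (κ + 1) f) ≤
        C * lorentzNorm ((d : ℝ) / (d - ((κ + 1 : ℕ) : ℝ))) (fun x => ENNReal.ofReal ‖f x‖) := by
  obtain ⟨C0, hC0, hst0⟩ := Hs_holds κ M (min m M) g (by omega) (min_le_right _ _) hg10 h1 C1 hC1 hS1
  have hst : Hs (κ + 1) m g C0 := hst0.anti (min_le_left _ _)
  obtain ⟨Cs, hCs, hms⟩ := minor_sum κ m s t A' g (by omega) hs hs2 η CJ hη0 hη hCJ hJ hg10 hg20 hA' K' hK'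
    hW' ht hmE
  obtain ⟨CW, hCW, hW⟩ := weyl_WH' κ M A hAκ hA C1 hC1 hS1
  obtain ⟨K, hK0, hK⟩ := restricted'' κ m g hκ hg10 hg20 hm C0 hC0 hst Cs hCs hms A (by omega) CW hCW hW
    s' s0 hs' η' CJ' hη' hCJ' hJ' h3A hAs d hd2 hdA hdN
  have hdk : 2 * (κ + 1) < d := by
    have : 2 * (κ + 1) + 2 ≤ m * (2 * (κ + 1) + 2) := Nat.le_mul_of_pos_left _ hm
    omega
  refine ⟨Real.toNNReal K, ?_⟩
  intro f
  have hd0 : (0 : ℝ) < d := by exact_mod_cast (by omega : 0 < d)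
  have hdkR : 2 * (((κ + 1 : ℕ)) : ℝ) < d := by exact_mod_cast hdk
  have hkpos : (0 : ℝ) < ((κ + 1 : ℕ) : ℝ) := by exact_mod_cast Nat.succ_pos κ
  have hp1 : 1 ≤ (d : ℝ) / (d - ((κ + 1 : ℕ) : ℝ)) := by
    rw [le_div_iff₀ (by linarith)]; linarith
  have hp : 1 / ((d : ℝ) / (d - ((κ + 1 : ℕ) : ℝ))) = 1 - ((κ + 1 : ℕ) : ℝ) / d := by
    rw [one_div_div, sub_div, div_self hd0.ne']
  have hθ0 : 0 < ((κ + 1 : ℕ) : ℝ) / d := by positivity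
  have hθ1 : ((κ + 1 : ℕ) : ℝ) / d < 1 := by
    rw [div_lt_one hd0]; linarith
  unfold weakNorm lorentzNorm
  rw [hp]
  refine iSup_le fun t => iSup_le fun ht => ?_
  refine le_trans (level_bound _ t (1 - ((κ + 1 : ℕ) : ℝ) / d) ht (by linarith)
    (ENNReal.ofReal K * ∫⁻ s in Set.Ioi (0 : ℝ), distr (fun x => ENNReal.ofReal ‖f x‖) s ^
      (1 - ((κ + 1 : ℕ) : ℝ) / d)) ?_) ?_
  · intro F hF
    exact finite_bound (κ + 1) (by omega) (by omega) K _ hK0 hθ0 hθ1 hK f t F (fun x hx => hF hx)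
  · change ENNReal.ofReal K * _ ≤ ENNReal.ofReal K * _
    refine mul_le_mul_right ?_ _
    refine le_mul_of_one_le_left bot_le ?_
    rw [← ENNReal.ofReal_one]
    exact ENNReal.ofReal_le_ofReal hp1

end Pool.Agent.helper132_quad
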