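import Pool.Agent.helper132_quad.R6

/-! The endpoint bound for `d ≥ 34 k² (log₂ (k-1) + 3)`. -/

namespace Pool.Agent.helper132_quad

open Finset Pool.Agent.helper132_sph Pool.Agent.helper132_poly
open scoped ENNReal NNReal

lemma eta_small' (κ l : ℕ) (hκ : 2 ≤ κ) (hl : 3 * κ * (Nat.log 2 κ + 3) ≤ 2 * l) : eta κ l ≤ 1 / 48 := by
  have hκR : (2 : ℝ) ≤ κ := by exact_mod_cast hκ
  have hκ0 : (0 : ℝ) < κ := by linarith
  obtain ⟨a, ha⟩ : ∃ a : ℝ, a = 1 - 1 / κ := ⟨_, rfl⟩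
  have ha0 : 0 ≤ a := by
    rw [ha]
    have : (1 : ℝ) / κ ≤ 1 := by rw [div_le_one hκ0]; linarith
    linarith
  have ha1 : a ≤ 1 := by
    rw [ha]
    have : (0 : ℝ) ≤ 1 / κ := by positivity
    linarith
  have hexp : a ^ (3 * κ) ≤ 1 / 20 := by
    have h1 : a ≤ Real.exp (-(1 / κ)) := by rw [ha]; exact Real.one_sub_le_exp_neg _
    have h2 : a ^ (3 * κ) ≤ Real.exp (-3) := by
      calc a ^ (3 * κ) ≤ (Real.exp (-(1 / κ))) ^ (3 * κ) := pow_le_pow_left₀ ha0 h1 _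
        _ = Real.exp (-3) := by
            rw [← Real.exp_nat_mul]
            congr 1
            push_cast
            field_simp
    have h3 : (20 : ℝ) ≤ Real.exp 3 := by
      have h4 := Real.exp_one_gt_d9
      have h5 : Real.exp 3 = (Real.exp 1) ^ 3 := by
        rw [← Real.exp_nat_mul]; norm_num
      rw [h5]
      calc (20 : ℝ) ≤ 2.7182818283 ^ 3 := by norm_num
        _ ≤ (Real.exp 1) ^ 3 := pow_le_pow_left₀ (by norm_num) h4.le 3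
    rw [Real.exp_neg] at h2
    refine h2.trans ?_
    rw [one_div]
    exact inv_anti₀ (by norm_num) h3
  obtain ⟨ℓ, hℓ⟩ : ∃ ℓ, ℓ = Nat.log 2 κ := ⟨_, rfl⟩
  rw [← hℓ] at hl
  have hℓ1 : 1 ≤ ℓ := by
    rw [hℓ]
    have := Nat.log_mono_right (b := 2) hκ
    have h2 : Nat.log 2 2 = 1 := by norm_num
    omega
  have h2ℓ : (κ : ℝ) < 2 ^ (ℓ + 1) := by
    have := Nat.lt_pow_succ_log_self (b := 2) (by norm_num) κ
    rw [← hℓ] at this
    exact_mod_cast this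
  have h2ℓ' : (κ : ℝ) + 1 ≤ 2 ^ (ℓ + 1) := by
    have := Nat.lt_pow_succ_log_self (b := 2) (by norm_num) κ
    rw [← hℓ] at this
    exact_mod_cast this
  obtain ⟨t, ht⟩ : ∃ t : ℝ, t = 2 ^ ℓ := ⟨_, rfl⟩
  have ht0 : 0 < t := by rw [ht]; positivity
  have hκt : (κ : ℝ) ≤ 2 * t := by rw [ht, ← pow_succ']; exact h2ℓ.le
  have hκt' : (κ : ℝ) + 1 ≤ 2 * t := by rw [ht, ← pow_succ']; exact h2ℓ'
  unfold eta
  rw [← ha]
  refine le_of_pow_le_pow_left₀ (n := 2) (by norm_num) (by norm_num) ?_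
  have h4 : (κ : ℝ) * (κ + 1) / 2 ≤ 2 * t ^ 2 := by
    have : (κ : ℝ) * (κ + 1) ≤ (2 * t) * (2 * t) := mul_le_mul hκt hκt' (by linarith) (by linarith)
    nlinarith
  have h5 : (a ^ l) ^ 2 ≤ (1 / 20) ^ (ℓ + 3) := by
    calc (a ^ l) ^ 2 = a ^ (2 * l) := by rw [← pow_mul, mul_comm]
      _ ≤ a ^ (3 * κ * (ℓ + 3)) := pow_le_pow_of_le_one ha0 ha1 hl
      _ = (a ^ (3 * κ)) ^ (ℓ + 3) := by rw [pow_mul]
      _ ≤ (1 / 20) ^ (ℓ + 3) := pow_le_pow_left₀ (by positivity) hexp _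
  have h6 : (4 / 5 : ℝ) ^ ℓ ≤ 4 / 5 := by
    calc (4 / 5 : ℝ) ^ ℓ ≤ (4 / 5) ^ 1 := pow_le_pow_of_le_one (by norm_num) (by norm_num) hℓ1
      _ = 4 / 5 := pow_one _
  calc ((κ : ℝ) * (κ + 1) / 2 * a ^ l) ^ 2 = ((κ : ℝ) * (κ + 1) / 2) ^ 2 * (a ^ l) ^ 2 := mul_pow _ _ _
    _ ≤ (2 * t ^ 2) ^ 2 * (1 / 20) ^ (ℓ + 3) := by gcongr
    _ = 1 / 2000 * (4 / 5 : ℝ) ^ ℓ := by
        have e1 : (4 / 5 : ℝ) ^ ℓ = t ^ 4 * (1 / 20) ^ ℓ := by
          rw [ht, ← pow_mul, mul_comm ℓ 4, pow_mul, ← mul_pow]; norm_num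
        rw [e1, pow_add]
        norm_num
        ring
    _ ≤ 1 / 2000 * (4 / 5) := mul_le_mul_of_nonneg_left h6 (by norm_num)
    _ ≤ (1 / 48) ^ 2 := by norm_num

/-- the mean value data for degree `κ`. -/
lemma exists_l (κ : ℕ) (hκ : 2 ≤ κ) : ∃ l : ℕ, 12 ≤ l ∧ eta κ l ≤ 1 / 48 ∧
    2 * l ≤ 3 * κ * (Nat.log 2 κ + 3) + 1 := by
  obtain ⟨w, hw⟩ : ∃ w, w = 3 * κ * (Nat.log 2 κ + 3) := ⟨_, rfl⟩
  have hlog : 1 ≤ Nat.log 2 κ := by
    have := Nat.log_mono_right (b := 2) hκ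
    have h2 : Nat.log 2 2 = 1 := by norm_num
    omega
  have hw24 : 24 ≤ w := by
    rw [hw]
    calc 24 = 3 * 2 * 4 := by norm_num
      _ ≤ 3 * κ * (Nat.log 2 κ + 3) := Nat.mul_le_mul (Nat.mul_le_mul_left _ hκ) (by omega)
  refine ⟨(w + 1) / 2, by omega, eta_small' κ _ hκ (by rw [← hw]; omega), by rw [← hw]; omega⟩

lemma MVT_vmvt (κ l : ℕ) (hκ : 1 ≤ κ) : ∃ C : ℝ, 1 ≤ C ∧ MVT κ (κ * l) (eta κ l) C := by
  obtain ⟨C, hC1, hC⟩ := vmvt κ hκ l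
  refine ⟨C, hC1, ?_⟩
  intro X hX
  refine (hC X hX).trans (le_of_eq ?_)
  congr 2
  unfold ee
  push_cast
  ring

lemma exists_WH' (κ : ℕ) (hκ : 2 ≤ κ) : ∃ A : ℕ, ∃ K : ℝ, 1 ≤ A ∧
    11 * A ≤ 24 * (3 * (κ - 1) ^ 2 * (Nat.log 2 κ + 3) + (κ - 1)) + 10 ∧ (κ = 2 → A ≤ 12) ∧
    1 ≤ K ∧ WH κ A K := by
  rcases hκ.eq_or_lt with h | h
  · rw [← h]
    obtain ⟨K, hK, hW⟩ := weyl_two
    exact ⟨12, K, by norm_num, by omega, by omega, hK, hW⟩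
  · obtain ⟨κ', rfl⟩ : ∃ κ', κ = κ' + 1 := ⟨κ - 1, by omega⟩
    obtain ⟨l, hl12, hη, hl2⟩ := exists_l κ' (by omega)
    obtain ⟨C, hC1, hC⟩ := S1 κ' l (by omega) hl12 hη
    have hlog : Nat.log 2 κ' ≤ Nat.log 2 (κ' + 1) := Nat.log_mono_right (by omega)
    have hM : κ' * 12 ≤ κ' * l := Nat.mul_le_mul_left _ hl12
    obtain ⟨M, hMd⟩ : ∃ M, M = 2 * (κ' * l) := ⟨_, rfl⟩
    rw [← hMd] at hC
    obtain ⟨K, hK, hW⟩ := weyl_WH' κ' M ((24 * M + 10) / 11) (by omega) (by omega) C hC1 hC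
    refine ⟨_, K, by omega, ?_, by omega, hK, hW⟩
    have h1 : M ≤ 3 * κ' ^ 2 * (Nat.log 2 (κ' + 1) + 3) + κ' := by
      calc M = κ' * (2 * l) := by rw [hMd]; ring
        _ ≤ κ' * (3 * κ' * (Nat.log 2 κ' + 3) + 1) := Nat.mul_le_mul_left _ hl2
        _ = 3 * κ' ^ 2 * (Nat.log 2 κ' + 3) + κ' := by ring
        _ ≤ _ := by gcongr
    rw [Nat.add_sub_cancel]
    omega

/-- The endpoint bound in all dimensions `d ≥ 34 k² (log₂ (k-1) + 3)`. -/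
theorem endpoint_log (k : ℕ) (hk : 3 ≤ k) (d : ℕ) (hd : 34 * k ^ 2 * (Nat.log 2 (k - 1) + 3) ≤ d) :
    ∃ C : ℝ≥0, ∀ f : (Fin d → ℤ) → ℂ,
      weakNorm ((d : ℝ) / (d - k)) (sphMax k f) ≤
        C * lorentzNorm ((d : ℝ) / (d - k)) (fun x => ENNReal.ofReal ‖f x‖) := by
  obtain ⟨κ, rfl⟩ : ∃ κ, k = κ + 1 := ⟨k - 1, by omega⟩
  rw [Nat.add_sub_cancel] at hd
  have hκ : 2 ≤ κ := by omega
  obtain ⟨v, hv⟩ : ∃ v, v = Nat.log 2 κ + 3 := ⟨_, rfl⟩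
  rw [← hv] at hd
  obtain ⟨l, hl12, hη, hl2⟩ := exists_l κ hκ
  obtain ⟨C1, hC1, hS1⟩ := S1 κ l hκ hl12 hη
  obtain ⟨CJ, hCJ, hJ⟩ := MVT_vmvt κ l (by omega)
  obtain ⟨A', K', hA'1, hA', hA'2, hK', hW'⟩ := exists_WH' κ hκ
  obtain ⟨l', hl'12, hη', hl'2⟩ := exists_l (κ + 1) (by omega)
  obtain ⟨CJ', hCJ', hJ'⟩ := MVT_vmvt (κ + 1) l' (by omega)
  rw [← hv] at hl2 hA'
  have hlogs : Nat.log 2 (κ + 1) + 3 ≤ v + 1 := by
    have h1 : Nat.log 2 (κ + 1) ≤ Nat.log 2 (κ * 2) := Nat.log_mono_right (by omega)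
    rw [Nat.log_mul_base (by norm_num) (by omega)] at h1
    omega
  have hlog1 : 1 ≤ Nat.log 2 κ := by
    have := Nat.log_mono_right (b := 2) hκ
    have h2 : Nat.log 2 2 = 1 := by norm_num
    omega
  have hv4 : 4 ≤ v := by omega
  obtain ⟨M, hM⟩ : ∃ M, M = 2 * (κ * l) := ⟨_, rfl⟩
  rw [← hM] at hS1
  have hκl : κ * 12 ≤ κ * l := Nat.mul_le_mul_left _ hl12
  have hM2 : M ≤ 3 * κ ^ 2 * v + κ := by
    calc M = κ * (2 * l) := by rw [hM]; ring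
      _ ≤ κ * (3 * κ * v + 1) := Nat.mul_le_mul_left _ hl2
      _ = _ := by ring
  obtain ⟨A, hA⟩ : ∃ A, A = (24 * M + 10) / 11 := ⟨_, rfl⟩
  obtain ⟨s', hs'⟩ : ∃ s', s' = (κ + 1) * l' := ⟨_, rfl⟩
  rw [← hs'] at hJ'
  have hs'1 : 1 ≤ s' := by
    rw [hs']; exact Nat.mul_pos (by omega) (by omega)
  have hs'2 : 2 * s' ≤ 3 * (κ + 1) ^ 2 * (v + 1) + (κ + 1) := by
    calc 2 * s' = (κ + 1) * (2 * l') := by rw [hs']; ring
      _ ≤ (κ + 1) * (3 * (κ + 1) * (Nat.log 2 (κ + 1) + 3) + 1) := Nat.mul_le_mul_left _ hl'2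
      _ ≤ (κ + 1) * (3 * (κ + 1) * (v + 1) + 1) := by gcongr
      _ = _ := by ring
  obtain ⟨m, hm⟩ : ∃ m, m = 17 * κ * v := ⟨_, rfl⟩
  have hm1 : 1 ≤ m := by
    rw [hm]; exact Nat.mul_pos (by omega) (by omega)
  obtain ⟨g, hg11, hg20, hgM, hgA⟩ : ∃ g, 10 ≤ g ∧ g ≤ 20 ∧ 3 * g * M ≤ 11 * (κ + 1) * min m M ∧
      250 * A' ≤ 12 * (g - 10) * (m * (κ + 2) - M) := by
    have hcases : κ = 2 ∨ κ = 3 ∨ κ = 4 ∨ 5 ≤ κ := by omega
    rcases hcases with h | h | h | h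
    · subst h
      have : v = 4 := by rw [hv]; norm_num
      subst this
      refine ⟨11, by norm_num, by norm_num, ?_, ?_⟩ <;> omega
    · subst h
      have : v = 4 := by
        rw [hv]
        have : Nat.log 2 3 = 1 := by norm_num
        omega
      subst this
      refine ⟨14, by norm_num, by norm_num, ?_, ?_⟩ <;> omega
    · subst h
      have : v = 5 := by
        rw [hv]
        have : Nat.log 2 4 = 2 := by
          have : Nat.log 2 (2 ^ 2) = 2 := Nat.log_pow (by norm_num) 2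
          norm_num at this ⊢
        omega
      subst this
      refine ⟨16, by norm_num, by norm_num, ?_, ?_⟩ <;> omega
    · refine ⟨20, by norm_num, by norm_num, ?_, ?_⟩
      · rcases le_total m M with hmM | hmM
        · rw [min_eq_left hmM]
          calc 3 * 20 * M ≤ 3 * 20 * (3 * κ ^ 2 * v + κ) := Nat.mul_le_mul_left _ hM2
            _ ≤ 11 * (κ + 1) * (17 * κ * v) := by
                have h1 : κ ≤ κ * v := Nat.le_mul_of_pos_right _ (by omega)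
                nlinarith
            _ = _ := by rw [hm]
        · rw [min_eq_right hmM]
          refine Nat.mul_le_mul_right _ ?_
          omega
      · obtain ⟨κ', rfl⟩ : ∃ κ', κ = κ' + 1 := ⟨κ - 1, by omega⟩
        rw [Nat.add_sub_cancel] at hA'
        obtain ⟨z, hz⟩ : ∃ z, z = m * (κ' + 1 + 2) - M := ⟨_, rfl⟩
        rw [← hz]
        have h1 : m * (κ' + 1 + 2) = 17 * (κ' + 1) * v * (κ' + 3) := by rw [hm]
        have h2 : 14 * κ' ^ 2 * v + 32 * κ' * v ≤ z := by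
          have h3 : 17 * (κ' + 1) * v * (κ' + 3) = 17 * κ' ^ 2 * v + 68 * κ' * v + 51 * v := by ring
          have h4 : 3 * (κ' + 1) ^ 2 * v + (κ' + 1) = 3 * κ' ^ 2 * v + 6 * κ' * v + 3 * v + κ' + 1 := by ring
          have h5 : κ' ≤ κ' * v := Nat.le_mul_of_pos_right _ (by omega)
          have h6 : 32 * κ' * v = 32 * (κ' * v) := by ring
          have h7 : 68 * κ' * v = 68 * (κ' * v) := by ring
          have h8 : 6 * κ' * v = 6 * (κ' * v) := by ring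
          have h9 : 17 * κ' ^ 2 * v = 17 * (κ' ^ 2 * v) := by ring
          have h10 : 3 * κ' ^ 2 * v = 3 * (κ' ^ 2 * v) := by ring
          have h11 : 14 * κ' ^ 2 * v = 14 * (κ' ^ 2 * v) := by ring
          rw [h9, h7] at h3
          rw [h10, h8] at h4
          rw [h11, h6]
          omega
        have h5 : κ' ≤ κ' * v := Nat.le_mul_of_pos_right _ (by omega)
        have h12 : 24 * (3 * κ' ^ 2 * v + κ') + 10 = 72 * (κ' ^ 2 * v) + 24 * κ' + 10 := by ring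
        rw [h12] at hA'
        have h13 : 14 * κ' ^ 2 * v + 32 * κ' * v = 14 * (κ' ^ 2 * v) + 32 * (κ' * v) := by ring
        rw [h13] at h2
        omega
  have hmM : M ≤ m * (κ + 2) := by
    rw [hm]
    refine hM2.trans ?_
    have h1 : κ ≤ κ * v := Nat.le_mul_of_pos_right _ (by omega)
    nlinarith
  have hres := endpoint_abs κ M (κ * l) m (m * (κ + 2) - M) A' A s' (3 * A + 2 * s') g hκ (by omega) C1 hC1 hS1
    (by omega) (by omega) (eta κ l) CJ (eta_nonneg κ l (by omega)) (by linarith) hCJ hJ hA'1 K' hK' hW'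
    hg11 hg20 hm1 hgM hgA (by rw [hM] at hmM ⊢; omega) (by omega) (by omega) hs'1 (eta (κ + 1) l') CJ'
    (by linarith) hCJ' hJ' (by omega) (by omega) d
  push_cast at hres ⊢
  refine hres ?_ ?_ ?_
  · refine le_trans ?_ hd
    rw [hm]
    have h2 : 34 * (κ + 1) ^ 2 * v = 17 * κ * v * (2 * (κ + 1) + 2) + 34 * v := by ring
    rw [h2]
    omega
  · refine le_trans ?_ hd
    have h1 : 11 * A ≤ 24 * M + 10 := by omega
    have h2 : 34 * (κ + 1) ^ 2 * v = 34 * (κ ^ 2 * v) + 68 * (κ * v) + 34 * v := by ring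
    have h3 : 3 * κ ^ 2 * v + κ = 3 * (κ ^ 2 * v) + κ := by ring
    have h4 : κ ≤ κ * v := Nat.le_mul_of_pos_right _ (by omega)
    rw [h2]
    rw [h3] at hM2
    omega
  · refine le_trans ?_ hd
    have h1 : 11 * A ≤ 24 * M + 10 := by omega
    have h2 : 34 * (κ + 1) ^ 2 * v = 34 * (κ ^ 2 * v) + 68 * (κ * v) + 34 * v := by ring
    have h3 : 3 * κ ^ 2 * v + κ = 3 * (κ ^ 2 * v) + κ := by ring
    have h4 : κ ≤ κ * v := Nat.le_mul_of_pos_right _ (by omega)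
    have h5 : 3 * (κ + 1) ^ 2 * (v + 1) + (κ + 1) = 3 * (κ ^ 2 * v) + 6 * (κ * v) + 3 * v + 3 * κ ^ 2 + 7 * κ + 4 := by
      ring
    have h6 : 2 * (κ + 1) ^ 2 = 2 * κ ^ 2 + 4 * κ + 2 := by ring
    have h7 : 4 * κ ^ 2 ≤ κ ^ 2 * v := by
      rw [mul_comm]; exact Nat.mul_le_mul_left _ hv4
    rw [h2]
    rw [h3] at hM2
    rw [h5] at hs'2
    rw [h6]
    omega

end Pool.Agent.helper132_quad
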