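import Pool.Agent.helper132_quad.Q1

/-! The sum over the very minor frequencies. -/

namespace Pool.Agent.helper132_quad

open Finset Pool.Agent.helper132_sph Pool.Agent.helper132_poly

/-- sup bound for the correlation sums at very minor frequencies. -/
lemma dl_sup (κ A' g : ℕ) (hg : 10 ≤ g) (hg2 : g ≤ 20) (K' : ℝ) (hK' : 1 ≤ K') (hW : WH κ A' K') :
    ∃ C1 : ℝ, 1 ≤ C1 ∧ ∀ (X : ℕ) (α R : ℝ) (h : ℤ), 1 ≤ X → 0 ≤ R →
      Pool.Agent.helper132_poly.Minor (κ + 1) X α R →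
      (X : ℝ) ^ g ≤ 1024 * R ^ 10 → h ≠ 0 → |h| < X →
      (dl (κ + 1) X α h ^ A') ^ 10 * (X : ℝ) ^ (g - 10) ≤ C1 := by
  have hκ1 : (1 : ℝ) ≤ (κ : ℝ) + 1 := by
    have : (0 : ℝ) ≤ κ := Nat.cast_nonneg _
    linarith
  have hKκ : (1 : ℝ) ≤ K' * (κ + 1) := by nlinarith
  obtain ⟨C1, hC1d⟩ : ∃ C1 : ℝ, C1 = 1024 * (K' * (κ + 1)) ^ 10 := ⟨_, rfl⟩
  have hC11 : 1 ≤ C1 := by
    have h2 : (1 : ℝ) ≤ (K' * (κ + 1)) ^ 10 := one_le_pow₀ hKκ
    rw [hC1d]; linarith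
  refine ⟨C1, hC11, ?_⟩
  intro X α R h hX hR0 hmin hXR10 hne hlt
  have hXR : (0 : ℝ) < X := by exact_mod_cast hX
  have hX1 : (1 : ℝ) ≤ X := by exact_mod_cast hX
  have hh1 : (1 : ℤ) ≤ |h| := Int.one_le_abs hne
  obtain ⟨u, hu⟩ : ∃ u : ℝ, u = dl (κ + 1) X α h := ⟨_, rfl⟩
  have hu0 : 0 ≤ u := by rw [hu]; exact dl_nonneg _ _ _ _
  rw [← hu]
  have hw := hW X hX (((κ : ℝ) + 1) * h * α) _ (PP.diff (PP.pow (κ + 1) α) h)
    (max (0 : ℤ) (0 - h)) (min (X : ℤ) (X - h)) (by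
      have := min_le_left (X : ℤ) (X - h)
      have := le_max_left (0 : ℤ) (0 - h)
      linarith)
  have hw' : (u ^ A' * X ≤ K') ∨ ∃ q : ℕ, ∃ c : ℤ, 1 ≤ q ∧ (q : ℝ) * u ^ A' ≤ K' ∧
      |q * (((κ : ℝ) + 1) * h * α) - c| * u ^ A' * (X : ℝ) ^ κ ≤ K' := by
    rw [hu]; exact hw
  have huA0 : 0 ≤ u ^ A' := by positivity
  rcases hw' with h1 | ⟨q, c, hq, h2, h3⟩
  · calc (u ^ A') ^ 10 * (X : ℝ) ^ (g - 10) ≤ (u ^ A') ^ 10 * (X : ℝ) ^ 10 := by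
          refine mul_le_mul_of_nonneg_left ?_ (by positivity)
          exact pow_le_pow_right₀ hX1 (by omega)
      _ = (u ^ A' * X) ^ 10 := by rw [mul_pow]
      _ ≤ K' ^ 10 := pow_le_pow_left₀ (by positivity) h1 10
      _ ≤ (K' * (κ + 1)) ^ 10 := by
          refine pow_le_pow_left₀ (by linarith) ?_ 10
          nlinarith
      _ ≤ C1 := by
          rw [hC1d]
          have : (0 : ℝ) ≤ (K' * (κ + 1)) ^ 10 := by positivity
          linarith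
  · have hqR : (1 : ℝ) ≤ q := by exact_mod_cast hq
    have hhR : (1 : ℝ) ≤ |(h : ℝ)| := by
      have : ((1 : ℤ) : ℝ) ≤ ((|h| : ℤ) : ℝ) := by exact_mod_cast hh1
      rw [Int.cast_abs] at this
      simpa using this
    have hhX : |(h : ℝ)| ≤ X := by
      have : ((|h| : ℤ) : ℝ) ≤ ((X : ℤ) : ℝ) := by exact_mod_cast hlt.le
      rw [Int.cast_abs] at this
      simpa using this
    have key : R * u ^ A' ≤ K' * (κ + 1) * X := by
      obtain ⟨Q, hQ⟩ : ∃ Q : ℕ, Q = q * (κ + 1) * h.natAbs := ⟨_, rfl⟩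
      have hQR : (Q : ℝ) = q * (κ + 1) * |(h : ℝ)| := by
        rw [hQ]
        push_cast
        rw [Nat.cast_natAbs]
        simp
      rcases le_or_gt (Q : ℝ) R with hle | hgt
      · have hQ1 : 1 ≤ Q := by
          rw [hQ]
          have : 0 < h.natAbs := Int.natAbs_pos.2 hne
          exact Nat.succ_le_of_lt (by positivity)
        have h4 := hmin Q (h.sign * c) hQ1 hle
        have h5 : |(Q : ℝ) * α - ((h.sign * c : ℤ) : ℝ)| = |q * (((κ : ℝ) + 1) * h * α) - c| := by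
          rw [hQR]
          rcases lt_or_gt_of_ne hne with hs | hs
          · have h6 : h.sign = -1 := Int.sign_eq_neg_one_of_neg hs
            have h7 : |(h : ℝ)| = -h := abs_of_neg (by exact_mod_cast hs)
            rw [h6, h7, ← abs_neg]
            congr 1
            push_cast
            ring
          · have h6 : h.sign = 1 := Int.sign_eq_one_of_pos hs
            have h7 : |(h : ℝ)| = h := abs_of_pos (by exact_mod_cast hs)
            rw [h6, h7]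
            congr 1
            push_cast
            ring
        rw [h5] at h4
        calc R * u ^ A' ≤ (|q * (((κ : ℝ) + 1) * h * α) - c| * (X : ℝ) ^ (κ + 1)) * u ^ A' :=
              mul_le_mul_of_nonneg_right h4.le huA0
          _ = (|q * (((κ : ℝ) + 1) * h * α) - c| * u ^ A' * (X : ℝ) ^ κ) * X := by
              rw [pow_succ]; ring
          _ ≤ K' * X := mul_le_mul_of_nonneg_right h3 hXR.le
          _ ≤ K' * (κ + 1) * X := mul_le_mul_of_nonneg_right (by nlinarith) hXR.le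
      · calc R * u ^ A' ≤ (Q : ℝ) * u ^ A' := mul_le_mul_of_nonneg_right hgt.le huA0
          _ = (q * u ^ A') * (κ + 1) * |(h : ℝ)| := by rw [hQR]; ring
          _ ≤ K' * (κ + 1) * X := by gcongr
    have h8 : (R * u ^ A') ^ 10 ≤ (K' * (κ + 1) * X) ^ 10 := pow_le_pow_left₀ (by positivity) key 10
    have hXg : (X : ℝ) ^ 10 * (X : ℝ) ^ (g - 10) = (X : ℝ) ^ g := by
      rw [← pow_add]; congr 1; omega
    have h9 : (X : ℝ) ^ 10 * ((u ^ A') ^ 10 * (X : ℝ) ^ (g - 10)) ≤ (X : ℝ) ^ 10 * C1 := by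
      calc (X : ℝ) ^ 10 * ((u ^ A') ^ 10 * (X : ℝ) ^ (g - 10))
          = (X : ℝ) ^ 10 * (X : ℝ) ^ (g - 10) * (u ^ A') ^ 10 := by ring
        _ = (X : ℝ) ^ g * (u ^ A') ^ 10 := by rw [hXg]
        _ ≤ (1024 * R ^ 10) * (u ^ A') ^ 10 := mul_le_mul_of_nonneg_right hXR10 (by positivity)
        _ = 1024 * (R * u ^ A') ^ 10 := by rw [mul_pow]; ring
        _ ≤ 1024 * (K' * (κ + 1) * X) ^ 10 := mul_le_mul_of_nonneg_left h8 (by norm_num)
        _ = (X : ℝ) ^ 10 * C1 := by rw [hC1d, mul_pow]; ring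
    exact le_of_mul_le_mul_left h9 (by positivity)

theorem minor_sum (κ m s t A' g : ℕ) (hκ : 1 ≤ κ) (hs : 1 ≤ s) (hs2 : κ ≤ 2 * s) (η CJ : ℝ)
    (hη0 : 0 ≤ η) (hη : η ≤ 1 / 12) (hCJ : 1 ≤ CJ) (hJ : MVT κ s η CJ) (hg : 10 ≤ g) (hg2 : g ≤ 20)
    (hA' : 1 ≤ A') (K' : ℝ) (hK' : 1 ≤ K') (hW : WH κ A' K') (ht : 250 * A' ≤ 12 * (g - 10) * t)
    (hm : 2 * s + t ≤ m * (κ + 2)) : ∃ C : ℝ, 1 ≤ C ∧
    ∀ (X : ℕ) (M : Finset ℕ), 1 ≤ X → (∀ a ∈ M, a < X ^ (κ + 1) ∧ ∃ R : ℝ, 0 ≤ R ∧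
       Pool.Agent.helper132_poly.Minor (κ + 1) X ((a : ℝ) / (X : ℝ) ^ (κ + 1)) R ∧
       (X : ℝ) ^ g ≤ 1024 * R ^ 10) →
      ∑ a ∈ M, Dl (κ + 1) m X ((a : ℝ) / (X : ℝ) ^ (κ + 1)) ^ (κ + 2) ≤ C / X := by
  classical
  obtain ⟨C1, hC11, hsup⟩ := dl_sup κ A' g hg hg2 K' hK' hW
  obtain ⟨Cm, hCm1, hmom⟩ := dl_moment κ s hκ hs hs2 η CJ hη0 hCJ hJ
  obtain ⟨C3, hC3⟩ : ∃ C3 : ℝ, C3 = C1 ^ (12 * t) := ⟨_, rfl⟩
  have hC31 : 1 ≤ C3 := by rw [hC3]; exact one_le_pow₀ hC11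
  refine ⟨2 ^ (κ + 2) + 2 ^ (2 * κ + 3) * (2 * (C3 * Cm)), ?_, ?_⟩
  · have h1 : (1 : ℝ) ≤ 2 ^ (κ + 2) := one_le_pow₀ (by norm_num)
    have h2 : (0 : ℝ) ≤ 2 ^ (2 * κ + 3) * (2 * (C3 * Cm)) := by positivity
    linarith
  intro X M hX hM
  have hXR : (0 : ℝ) < X := by exact_mod_cast hX
  have hX1 : (1 : ℝ) ≤ X := by exact_mod_cast hX
  obtain ⟨al, hal⟩ : ∃ al : ℕ → ℝ, al = fun a : ℕ => (a : ℝ) / (X : ℝ) ^ (κ + 1) := ⟨_, rfl⟩
  obtain ⟨I, hI⟩ : ∃ I : Finset ℤ, I = (Ioo (-(X : ℤ)) X).erase 0 := ⟨_, rfl⟩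
  have hIcard : (I.card : ℝ) ≤ 2 * X := by
    have h1 : I.card ≤ (Ioo (-(X : ℤ)) X).card := by rw [hI]; exact Finset.card_erase_le
    rw [Int.card_Ioo] at h1
    have h2 : I.card ≤ 2 * X := by omega
    exact_mod_cast h2
  have hImem : ∀ h ∈ I, h ≠ 0 ∧ |h| < X := by
    intro h hh
    rw [hI, Finset.mem_erase, Finset.mem_Ioo] at hh
    exact ⟨hh.1, abs_lt.2 hh.2⟩
  -- pointwise
  have hpt : ∀ a ∈ M, Dl (κ + 1) m X (al a) ^ (κ + 2) ≤ 2 ^ (κ + 2) / (X : ℝ) ^ (κ + 2) +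
      2 ^ (2 * κ + 3) / X * ∑ h ∈ I, dl (κ + 1) X (al a) h ^ (m * (κ + 2)) := by
    intro a _
    obtain ⟨T, hT⟩ : ∃ T : ℝ, T = ∑ h ∈ I, dl (κ + 1) X (al a) h ^ m := ⟨_, rfl⟩
    have hT0 : 0 ≤ T := by
      rw [hT]; exact Finset.sum_nonneg fun h _ => pow_nonneg (dl_nonneg _ _ _ _) _
    have h1 : Dl (κ + 1) m X (al a) ≤ (1 + T) / X := by
      unfold Dl
      refine div_le_div_of_nonneg_right ?_ hXR.le
      have h0 : (0 : ℤ) ∈ Ioo (-(X : ℤ)) X := by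
        rw [Finset.mem_Ioo]
        have : (1 : ℤ) ≤ X := by exact_mod_cast hX
        constructor <;> linarith
      rw [← Finset.sum_erase_add _ _ h0, add_comm, hT, hI]
      exact add_le_add (pow_le_one₀ (dl_nonneg _ _ _ _) (dl_le_one _ _ _ _ hX)) le_rfl
    have h2 : T ^ (κ + 2) ≤ (2 * X) ^ (κ + 1) * ∑ h ∈ I, dl (κ + 1) X (al a) h ^ (m * (κ + 2)) := by
      rcases I.eq_empty_or_nonempty with h0 | hne
      · rw [h0] at hT
        rw [Finset.sum_empty] at hT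
        rw [hT, zero_pow (by omega)]
        exact mul_nonneg (by positivity) (Finset.sum_nonneg fun h _ => pow_nonneg (dl_nonneg _ _ _ _) _)
      · have h3 := pow_sum_div_card_le_sum_pow (s := I) (f := fun h => dl (κ + 1) X (al a) h ^ m)
          (fun h _ => pow_nonneg (dl_nonneg _ _ _ _) _) (κ + 1)
        have hc : (0 : ℝ) < I.card := by exact_mod_cast hne.card_pos
        rw [← hT, div_le_iff₀ (by positivity)] at h3
        have h4 : ∑ h ∈ I, (dl (κ + 1) X (al a) h ^ m) ^ (κ + 1 + 1) =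
            ∑ h ∈ I, dl (κ + 1) X (al a) h ^ (m * (κ + 2)) :=
          Finset.sum_congr rfl fun h _ => by rw [← pow_mul]
        rw [h4] at h3
        refine h3.trans ?_
        rw [mul_comm]
        refine mul_le_mul_of_nonneg_right (pow_le_pow_left₀ hc.le hIcard _) ?_
        exact Finset.sum_nonneg fun h _ => pow_nonneg (dl_nonneg _ _ _ _) _
    have hS0 : 0 ≤ ∑ h ∈ I, dl (κ + 1) X (al a) h ^ (m * (κ + 2)) :=
      Finset.sum_nonneg fun h _ => pow_nonneg (dl_nonneg _ _ _ _) _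
    calc Dl (κ + 1) m X (al a) ^ (κ + 2) ≤ ((1 + T) / X) ^ (κ + 2) :=
          pow_le_pow_left₀ (Dl_nonneg _ _ _ _) h1 _
      _ = (1 + T) ^ (κ + 2) / (X : ℝ) ^ (κ + 2) := div_pow _ _ _
      _ ≤ (2 ^ (κ + 2) * (1 ^ (κ + 2) + T ^ (κ + 2))) / (X : ℝ) ^ (κ + 2) :=
          div_le_div_of_nonneg_right (add_pow_le_two 1 T zero_le_one hT0 _) (by positivity)
      _ ≤ (2 ^ (κ + 2) * (1 + (2 * X) ^ (κ + 1) * ∑ h ∈ I, dl (κ + 1) X (al a) h ^ (m * (κ + 2)))) /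
          (X : ℝ) ^ (κ + 2) := by
          rw [one_pow]
          gcongr
      _ = _ := by
          rw [mul_pow]
          field_simp
          ring
  -- one correlation
  have hone : ∀ h ∈ I, ∑ a ∈ M, dl (κ + 1) X (al a) h ^ (m * (κ + 2)) ≤ C3 * Cm * (X : ℝ) ^ (-1 : ℝ) := by
    intro h hh
    obtain ⟨hne, hlt⟩ := hImem h hh
    have hU : ∀ a ∈ M, dl (κ + 1) X (al a) h ^ t ≤ C3 * (X : ℝ) ^ (-(25 / 12) : ℝ) := by
      intro a ha
      obtain ⟨_, R, hR0, hmin, hXg⟩ := hM a ha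
      have h1 := hsup X (al a) R h hX hR0 (by rw [hal]; exact hmin) hXg hne hlt
      obtain ⟨u, hu⟩ : ∃ u : ℝ, u = dl (κ + 1) X (al a) h := ⟨_, rfl⟩
      have hu0 : 0 ≤ u := by rw [hu]; exact dl_nonneg _ _ _ _
      rw [← hu] at h1 ⊢
      refine le_of_pow_le_pow_left₀ (n := 120 * A') (by omega) (by positivity) ?_
      have e1 : (u ^ t) ^ (120 * A') = ((u ^ A') ^ 10) ^ (12 * t) := by
        rw [← pow_mul, ← pow_mul, ← pow_mul]; congr 1; ring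
      have h2 : ((u ^ A') ^ 10 * (X : ℝ) ^ (g - 10)) ^ (12 * t) ≤ C1 ^ (12 * t) :=
        pow_le_pow_left₀ (by positivity) h1 _
      have h3 : ((X : ℝ) ^ (-(25 / 12) : ℝ)) ^ (120 * A') * (X : ℝ) ^ (250 * A') = 1 := by
        rw [← Real.rpow_natCast, ← Real.rpow_mul hXR.le, ← Real.rpow_natCast, ← Real.rpow_add hXR]
        push_cast
        have : -(25 / 12) * (120 * (A' : ℝ)) + 250 * A' = 0 := by ring
        rw [this, Real.rpow_zero]
      have h4 : (X : ℝ) ^ (250 * A') ≤ ((X : ℝ) ^ (g - 10)) ^ (12 * t) := by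
        rw [← pow_mul]
        refine pow_le_pow_right₀ hX1 ?_
        calc 250 * A' ≤ 12 * (g - 10) * t := ht
          _ = (g - 10) * (12 * t) := by ring
      have h5 : (u ^ t) ^ (120 * A') * (X : ℝ) ^ (250 * A') ≤ C3 := by
        rw [e1, hC3]
        calc ((u ^ A') ^ 10) ^ (12 * t) * (X : ℝ) ^ (250 * A')
            ≤ ((u ^ A') ^ 10) ^ (12 * t) * ((X : ℝ) ^ (g - 10)) ^ (12 * t) :=
              mul_le_mul_of_nonneg_left h4 (by positivity)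
          _ = ((u ^ A') ^ 10 * (X : ℝ) ^ (g - 10)) ^ (12 * t) := by rw [mul_pow]
          _ ≤ C1 ^ (12 * t) := h2
      have h6 : 0 < (X : ℝ) ^ (250 * A') := by positivity
      refine le_of_mul_le_mul_right ?_ h6
      rw [mul_pow, mul_assoc, h3, mul_one]
      exact h5.trans (le_self_pow₀ hC31 (by omega))
    have hsub : M ⊆ range (X ^ (κ + 1)) := fun a ha => Finset.mem_range.2 (hM a ha).1
    have h7 : ∑ a ∈ M, dl (κ + 1) X (al a) h ^ (2 * s) ≤ Cm * (X : ℝ) ^ (13 / 12 : ℝ) := by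
      have h8 := hmom X h hX hne hlt
      have h9 : (X : ℝ) ^ (1 + η) ≤ (X : ℝ) ^ (13 / 12 : ℝ) :=
        Real.rpow_le_rpow_of_exponent_le hX1 (by linarith)
      calc ∑ a ∈ M, dl (κ + 1) X (al a) h ^ (2 * s)
          ≤ ∑ a ∈ range (X ^ (κ + 1)), dl (κ + 1) X (al a) h ^ (2 * s) :=
            Finset.sum_le_sum_of_subset_of_nonneg hsub fun a _ _ => pow_nonneg (dl_nonneg _ _ _ _) _
        _ ≤ Cm * (X : ℝ) ^ (1 + η) := by rw [hal]; exact h8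
        _ ≤ _ := mul_le_mul_of_nonneg_left h9 (by linarith)
    calc ∑ a ∈ M, dl (κ + 1) X (al a) h ^ (m * (κ + 2))
        ≤ ∑ a ∈ M, (C3 * (X : ℝ) ^ (-(25 / 12) : ℝ)) * dl (κ + 1) X (al a) h ^ (2 * s) := by
          refine Finset.sum_le_sum fun a ha => ?_
          have h10 : dl (κ + 1) X (al a) h ^ (m * (κ + 2)) ≤ dl (κ + 1) X (al a) h ^ (t + 2 * s) :=
            pow_le_pow_of_le_one (dl_nonneg _ _ _ _) (dl_le_one _ _ _ _ hX) (by omega)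
          refine h10.trans ?_
          rw [pow_add]
          exact mul_le_mul_of_nonneg_right (hU a ha) (pow_nonneg (dl_nonneg _ _ _ _) _)
      _ = (C3 * (X : ℝ) ^ (-(25 / 12) : ℝ)) * ∑ a ∈ M, dl (κ + 1) X (al a) h ^ (2 * s) := by
          rw [Finset.mul_sum]
      _ ≤ (C3 * (X : ℝ) ^ (-(25 / 12) : ℝ)) * (Cm * (X : ℝ) ^ (13 / 12 : ℝ)) :=
          mul_le_mul_of_nonneg_left h7 (by positivity)
      _ = C3 * Cm * ((X : ℝ) ^ (-(25 / 12) : ℝ) * (X : ℝ) ^ (13 / 12 : ℝ)) := by ring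
      _ = C3 * Cm * (X : ℝ) ^ (-1 : ℝ) := by
          rw [← Real.rpow_add hXR]; norm_num
  have hMcard : (M.card : ℝ) ≤ (X : ℝ) ^ (κ + 1) := by
    have h1 : M ⊆ range (X ^ (κ + 1)) := fun a ha => Finset.mem_range.2 (hM a ha).1
    have h2 := Finset.card_le_card h1
    rw [Finset.card_range] at h2
    exact_mod_cast h2
  have hinv : (X : ℝ) ^ (-1 : ℝ) = 1 / X := by rw [Real.rpow_neg_one, one_div]
  have hgoal : ∑ a ∈ M, Dl (κ + 1) m X ((a : ℝ) / (X : ℝ) ^ (κ + 1)) ^ (κ + 2) =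
      ∑ a ∈ M, Dl (κ + 1) m X (al a) ^ (κ + 2) := by rw [hal]
  rw [hgoal]
  refine (Finset.sum_le_sum hpt).trans ?_
  rw [Finset.sum_add_distrib, Finset.sum_const, nsmul_eq_mul, ← Finset.mul_sum, Finset.sum_comm]
  have h11 : ∑ h ∈ I, ∑ a ∈ M, dl (κ + 1) X (al a) h ^ (m * (κ + 2)) ≤ 2 * (C3 * Cm) := by
    refine (Finset.sum_le_sum hone).trans ?_
    rw [Finset.sum_const, nsmul_eq_mul, hinv]
    calc (I.card : ℝ) * (C3 * Cm * (1 / X)) ≤ (2 * X) * (C3 * Cm * (1 / X)) :=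
          mul_le_mul_of_nonneg_right hIcard (by positivity)
      _ = 2 * (C3 * Cm) := by field_simp
  calc (M.card : ℝ) * (2 ^ (κ + 2) / (X : ℝ) ^ (κ + 2)) +
        2 ^ (2 * κ + 3) / X * ∑ h ∈ I, ∑ a ∈ M, dl (κ + 1) X (al a) h ^ (m * (κ + 2))
      ≤ (X : ℝ) ^ (κ + 1) * (2 ^ (κ + 2) / (X : ℝ) ^ (κ + 2)) + 2 ^ (2 * κ + 3) / X * (2 * (C3 * Cm)) := by
        gcongr
    _ = _ := by
        field_simp
        ring

end Pool.Agent.helper132_quad
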