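import Pool.Agent.helper132_quad.Q5

/-! Weyl's inequality with a better exponent. -/

namespace Pool.Agent.helper132_quad

open Finset Pool.Agent.helper132_sph Pool.Agent.helper132_poly

/-- Weyl's inequality in inverse form. -/
theorem weyl_WH' (κ m A : ℕ) (hm1 : κ + 1 ≤ A) (hA : 24 * m ≤ 11 * A) (C : ℝ) (hC1 : 1 ≤ C)
    (hC : S1H κ m C) : ∃ K : ℝ, 1 ≤ K ∧ WH (κ + 1) A K := by
  obtain ⟨K, hK⟩ : ∃ K : ℝ, K = C * 2 ^ (12 * m) + 1 := ⟨_, rfl⟩
  have hK1 : 1 ≤ K := by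
    have : 0 ≤ C * 2 ^ (12 * m) := by positivity
    rw [hK]; linarith
  have hK11 : C * 2 ^ (12 * m) < K ^ 11 := by
    calc C * 2 ^ (12 * m) < K := by rw [hK]; linarith
      _ ≤ K ^ 11 := le_self_pow₀ hK1 (by norm_num)
  have hK0 : 0 < K := by linarith
  refine ⟨K, hK1, ?_⟩
  -- the case of full intervals
  have hfull : ∀ (X : ℕ) (_ : 1 ≤ X) (α : ℝ) (φ : ℤ → ℝ) (_ : PP (κ + 1) α φ),
      ((‖∑ n ∈ Ico (0 : ℤ) X, ec (φ n)‖ / X) ^ A * X ≤ K) ∨
      ∃ q : ℕ, ∃ c : ℤ, 1 ≤ q ∧ (q : ℝ) * (‖∑ n ∈ Ico (0 : ℤ) X, ec (φ n)‖ / X) ^ A ≤ K ∧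
        |q * α - c| * (‖∑ n ∈ Ico (0 : ℤ) X, ec (φ n)‖ / X) ^ A * (X : ℝ) ^ (κ + 1) ≤ K := by
    intro X hX α φ hφ
    have hXR : (0 : ℝ) < X := by exact_mod_cast hX
    have hu := sum_pow_le_Vm φ X m hX
    obtain ⟨u, hu'⟩ : ∃ u : ℝ, u = ‖∑ n ∈ Ico (0 : ℤ) X, ec (φ n)‖ / X := ⟨_, rfl⟩
    rw [← hu'] at hu ⊢
    have hu0 : 0 ≤ u := by rw [hu']; positivity
    have hu1 : u ≤ 1 := by
      rw [hu', div_le_one hXR]
      exact norm_sum_ec_le 0 X φ X (by linarith)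
    by_contra hcon
    rw [not_or] at hcon
    obtain ⟨hc1, hc2⟩ := hcon
    push Not at hc1
    have hupos : 0 < u := by
      rcases hu0.eq_or_lt with h | h
      · exfalso
        rw [← h, zero_pow (by omega), zero_mul] at hc1
        linarith
      · exact h
    obtain ⟨R, hR⟩ : ∃ R : ℝ, R = K / u ^ A := ⟨_, rfl⟩
    have huA : 0 < u ^ A := by positivity
    have hRu : R * u ^ A = K := by rw [hR]; field_simp
    have hR1 : 1 ≤ R := by
      rw [hR, le_div_iff₀ huA, one_mul]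
      exact (pow_le_one₀ hu0 hu1).trans hK1
    have hR0 : 0 < R := by linarith
    have hRX : R ≤ X := by
      rw [hR, div_le_iff₀ huA]
      linarith
    have hS := hC X α R φ hX hφ hR1 hRX (by
      intro q c hq hqR
      by_contra hcon
      push Not at hcon
      refine hc2 ⟨q, c, hq, ?_, ?_⟩
      · rw [← hRu]; exact mul_le_mul_of_nonneg_right hqR huA.le
      · rw [← hRu]
        calc |q * α - c| * u ^ A * (X : ℝ) ^ (κ + 1) =
              (|q * α - c| * (X : ℝ) ^ (κ + 1)) * u ^ A := by ring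
          _ ≤ R * u ^ A := mul_le_mul_of_nonneg_right hcon huA.le)
    have h1 : (u ^ (2 * m)) ^ 12 ≤ (2 ^ m * Vm φ X m) ^ 12 := pow_le_pow_left₀ (by positivity) hu 12
    have h2 : (u ^ (2 * m)) ^ 12 * R ^ 11 ≤ C * 2 ^ (12 * m) := by
      calc (u ^ (2 * m)) ^ 12 * R ^ 11 ≤ (2 ^ m * Vm φ X m) ^ 12 * R ^ 11 :=
            mul_le_mul_of_nonneg_right h1 (by positivity)
        _ = (2 ^ m) ^ 12 * (Vm φ X m ^ 12 * R ^ 11) := by ring
        _ ≤ (2 ^ m) ^ 12 * C := mul_le_mul_of_nonneg_left hS (by positivity)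
        _ = C * 2 ^ (12 * m) := by rw [← pow_mul, mul_comm m 12]; ring
    have h3 : K ^ 11 ≤ (u ^ (2 * m)) ^ 12 * R ^ 11 := by
      have e1 : K ^ 11 = R ^ 11 * (u ^ A) ^ 11 := by rw [← hRu, mul_pow]
      rw [e1, mul_comm]
      refine mul_le_mul_of_nonneg_right ?_ (by positivity)
      rw [← pow_mul, ← pow_mul]
      exact pow_le_pow_of_le_one hu0 hu1 (by omega)
    linarith
  -- general intervals
  intro N hN α φ hφ a b hab
  have hNR : (0 : ℝ) < N := by exact_mod_cast hN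
  have hN1 : (1 : ℝ) ≤ N := by exact_mod_cast hN
  rcases le_or_gt b a with hba | hba
  · left
    rw [Finset.Ico_eq_empty_iff.2 (not_lt.2 hba), Finset.sum_empty, norm_zero, zero_div,
      zero_pow (by omega), zero_mul]
    exact hK0.le
  obtain ⟨X, hX⟩ : ∃ X : ℕ, (X : ℤ) = b - a := ⟨(b - a).toNat, by omega⟩
  have hX1 : 1 ≤ X := by omega
  have hXN : X ≤ N := by omega
  have hXR : (0 : ℝ) < X := by exact_mod_cast hX1
  have hXNR : (X : ℝ) ≤ N := by exact_mod_cast hXN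
  have hsum : ∑ n ∈ Ico a b, ec (φ n) = ∑ n ∈ Ico (0 : ℤ) X, ec (φ (n + a)) := by
    refine Finset.sum_bij' (fun n _ => n - a) (fun n _ => n + a) ?_ ?_ ?_ ?_ ?_
    · intro n hn; rw [Finset.mem_Ico] at hn ⊢; constructor <;> linarith [hn.1, hn.2]
    · intro n hn; rw [Finset.mem_Ico] at hn ⊢; constructor <;> linarith [hn.1, hn.2]
    · intro n _; ring
    · intro n _; ring
    · intro n _; rw [sub_add_cancel]
  have h := hfull X hX1 α (fun n => φ (n + a)) (PP.shift hφ a)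
  rw [hsum]
  obtain ⟨S, hS⟩ : ∃ S : ℝ, S = ‖∑ n ∈ Ico (0 : ℤ) X, ec (φ (n + a))‖ := ⟨_, rfl⟩
  have hS0 : 0 ≤ S := by rw [hS]; exact norm_nonneg _
  rw [← hS]
  have h' : ((S / X) ^ A * X ≤ K) ∨
      ∃ q : ℕ, ∃ c : ℤ, 1 ≤ q ∧ (q : ℝ) * (S / X) ^ A ≤ K ∧
        |q * α - c| * (S / X) ^ A * (X : ℝ) ^ (κ + 1) ≤ K := by
    rw [hS]; exact h
  have hcomp : ∀ j, j ≤ A → (S / N) ^ A * (N : ℝ) ^ j ≤ (S / X) ^ A * (X : ℝ) ^ j := by
    intro j hj
    obtain ⟨i, hi⟩ : ∃ i, A = j + i := ⟨A - j, by omega⟩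
    rw [hi, div_pow, div_pow, pow_add (N : ℝ), pow_add (X : ℝ)]
    have e1 : S ^ (j + i) / ((N : ℝ) ^ j * (N : ℝ) ^ i) * (N : ℝ) ^ j = S ^ (j + i) / (N : ℝ) ^ i := by
      field_simp
    have e2 : S ^ (j + i) / ((X : ℝ) ^ j * (X : ℝ) ^ i) * (X : ℝ) ^ j = S ^ (j + i) / (X : ℝ) ^ i := by
      field_simp
    rw [e1, e2]
    refine div_le_div_of_nonneg_left (by positivity) (by positivity) ?_
    exact pow_le_pow_left₀ hXR.le hXNR i
  rcases h' with h1 | ⟨q, c, hq, h2, h3⟩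
  · left
    have h4 := hcomp 1 (by omega)
    rw [pow_one, pow_one] at h4
    exact h4.trans h1
  · right
    refine ⟨q, c, hq, ?_, ?_⟩
    · have h4 := hcomp 0 (by omega)
      rw [pow_zero, pow_zero, mul_one, mul_one] at h4
      exact (mul_le_mul_of_nonneg_left h4 (Nat.cast_nonneg _)).trans h2
    · have h4 := hcomp (κ + 1) hm1
      calc |q * α - c| * (S / N) ^ A * (N : ℝ) ^ (κ + 1)
          = |q * α - c| * ((S / N) ^ A * (N : ℝ) ^ (κ + 1)) := by ring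
        _ ≤ |q * α - c| * ((S / X) ^ A * (X : ℝ) ^ (κ + 1)) :=
            mul_le_mul_of_nonneg_left h4 (abs_nonneg _)
        _ = |q * α - c| * (S / X) ^ A * (X : ℝ) ^ (κ + 1) := by ring
        _ ≤ K := h3

end Pool.Agent.helper132_quad
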