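import Pool.Agent.helper132_quad.Q6
import Pool.Agent.helper132_sph.Restr

/-! Mean value estimate with few variables. -/

namespace Pool.Agent.helper132_quad

open Finset Pool.Agent.helper132_sph Pool.Agent.helper132_poly

/-- the mean value estimate. -/
lemma mean_value'' (k A s' s0 : ℕ) (hk : 3 ≤ k) (C : ℝ) (hC : 1 ≤ C) (hW : WH k A C)
    (hs' : 1 ≤ s') (η CJ : ℝ) (hη : η ≤ 1) (hCJ : 1 ≤ CJ) (hJ : MVT k s' η CJ)
    (h3A : 3 * A ≤ s0) (hAs : A + 2 * s' ≤ s0) :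
    ∃ K : ℝ, 1 ≤ K ∧ ∀ R X : ℕ, 1 ≤ R → 1 ≤ X →
      ∑ a ∈ range (R * X ^ k), (‖fS k X ((a : ℝ) / ((R * X ^ k : ℕ) : ℝ))‖ / X) ^ s0 ≤
        K * (R + 2) ^ 3 := by
  classical
  obtain ⟨Ks, hKs1, hKs⟩ := sum_wt
  have hC0 : 0 < C := by linarith
  obtain ⟨Cm, hCm1, hmom⟩ := fS_moment k s' (by omega) hs' η CJ hCJ hJ
  refine ⟨C ^ 3 * Ks + C * Cm, ?_, ?_⟩
  · have h1 : (1 : ℝ) ≤ C ^ 3 := one_le_pow₀ hC
    have h2 : (0 : ℝ) ≤ C * Cm := by positivity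
    have h3 : (1 : ℝ) * 1 ≤ C ^ 3 * Ks := mul_le_mul h1 hKs1 zero_le_one (by positivity)
    linarith
  intro R X hR hX
  have hXR : (1 : ℝ) ≤ X := by exact_mod_cast hX
  have hX0 : (0 : ℝ) < X := by linarith
  have hRR : (1 : ℝ) ≤ R := by exact_mod_cast hR
  have hR0 : (0 : ℝ) < R := by linarith
  have hXk : (0 : ℝ) < (X : ℝ) ^ k := by positivity
  obtain ⟨P, hP⟩ : ∃ P : ℕ, P = R * X ^ k := ⟨_, rfl⟩
  have hPR : (P : ℝ) = R * (X : ℝ) ^ k := by rw [hP]; push_cast; ring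
  have hP0 : (0 : ℝ) < P := by rw [hPR]; positivity
  rw [← hP]
  obtain ⟨u, hu⟩ : ∃ u : ℕ → ℝ, u = fun a : ℕ => ‖fS k X ((a : ℝ) / (P : ℝ))‖ / X := ⟨_, rfl⟩
  have hu0 : ∀ a, 0 ≤ u a := by intro a; rw [hu]; positivity
  have hgoal : ∑ a ∈ range P, (‖fS k X ((a : ℝ) / ((P : ℕ) : ℝ))‖ / X) ^ s0 =
      ∑ a ∈ range P, u a ^ s0 := by rw [hu]
  rw [hgoal]
  have hu1 : ∀ a, u a ≤ 1 := by
    intro a; rw [hu]; beta_reduce; rw [div_le_one hX0]; exact norm_fS_le _ _ _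
  obtain ⟨Sh, hSh⟩ : ∃ Sh : Finset ℕ, Sh = (range P).filter (fun a => ¬ (u a ^ A * X ≤ C)) := ⟨_, rfl⟩
  rw [← Finset.sum_filter_add_sum_filter_not (range P) (fun a => u a ^ A * X ≤ C), ← hSh]
  have hdeep : ∑ a ∈ (range P).filter (fun a => u a ^ A * X ≤ C), u a ^ s0 ≤ C * Cm * (R + 2) ^ 3 := by
    have h1 : ∀ a ∈ (range P).filter (fun a => u a ^ A * X ≤ C), u a ^ s0 ≤ C / X * u a ^ (2 * s') := by
      intro a ha
      have h2 := (Finset.mem_filter.1 ha).2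
      have h3 : u a ^ A ≤ C / X := by rw [le_div_iff₀ hX0]; exact h2
      calc u a ^ s0 ≤ u a ^ (A + 2 * s') := pow_le_pow_of_le_one (hu0 a) (hu1 a) hAs
        _ = u a ^ A * u a ^ (2 * s') := pow_add _ _ _
        _ ≤ _ := mul_le_mul_of_nonneg_right h3 (pow_nonneg (hu0 a) _)
    refine (Finset.sum_le_sum h1).trans ?_
    rw [← Finset.mul_sum]
    have h4 : ∑ a ∈ (range P).filter (fun a => u a ^ A * X ≤ C), u a ^ (2 * s') ≤ Cm * R * X := by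
      have h5 := hmom R X hR hX
      rw [← hP] at h5
      have h6 : ∑ a ∈ range P, (‖fS k X ((a : ℝ) / ((P : ℕ) : ℝ))‖ / X) ^ (2 * s') =
          ∑ a ∈ range P, u a ^ (2 * s') := by rw [hu]
      rw [h6] at h5
      have h7 : (X : ℝ) ^ η ≤ X := by
        calc (X : ℝ) ^ η ≤ (X : ℝ) ^ (1 : ℝ) := Real.rpow_le_rpow_of_exponent_le hXR hη
          _ = X := Real.rpow_one _
      calc _ ≤ ∑ a ∈ range P, u a ^ (2 * s') :=
            Finset.sum_le_sum_of_subset_of_nonneg (Finset.filter_subset _ _) fun a _ _ => pow_nonneg (hu0 a) _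
        _ ≤ Cm * R * (X : ℝ) ^ η := h5
        _ ≤ Cm * R * X := mul_le_mul_of_nonneg_left h7 (by positivity)
    calc C / X * ∑ a ∈ (range P).filter (fun a => u a ^ A * X ≤ C), u a ^ (2 * s')
        ≤ C / X * (Cm * R * X) := mul_le_mul_of_nonneg_left h4 (by positivity)
      _ = C * Cm * R := by field_simp
      _ ≤ C * Cm * (R + 2) ^ 3 := by
          refine mul_le_mul_of_nonneg_left ?_ (by positivity)
          have : (R : ℝ) + 2 ≤ (R + 2) ^ 3 := le_self_pow₀ (by linarith) (by norm_num)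
          linarith
  have hex : ∀ a, ∃ τ : ℕ × ℤ × ℤ, a ∈ Sh → ((1 ≤ τ.1 ∧ -1 ≤ τ.2.1 ∧ τ.2.1 ≤ τ.1 + 1) ∧
      (a : ℤ) = τ.2.2 + ((P : ℤ) * τ.2.1) / (τ.1 : ℤ) ∧ u a ^ A * (wt τ : ℝ) ≤ (R + 2) * C) := by
    intro a
    by_cases haS : a ∈ Sh
    swap
    · exact ⟨(0, 0, 0), fun h => absurd h haS⟩
    have haS' := haS
    rw [hSh, Finset.mem_filter, Finset.mem_range] at haS'
    obtain ⟨haP, hnd⟩ := haS'
    obtain ⟨α, hα⟩ : ∃ α : ℝ, α = (a : ℝ) / P := ⟨_, rfl⟩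
    have hWX := hW X hX α (fun n : ℤ => α * (n : ℝ) ^ k) (PP.pow k α) 0 X (by simp)
    have hua : ‖∑ n ∈ Ico (0 : ℤ) X, ec ((fun n : ℤ => α * (n : ℝ) ^ k) n)‖ / X = u a := by
      rw [hu, hα]; rfl
    rw [hua] at hWX
    obtain ⟨q, c0, hq, h1, h2⟩ := hWX.resolve_left hnd
    have hqR : (1 : ℝ) ≤ q := by exact_mod_cast hq
    have hq0 : (0 : ℝ) < q := by linarith
    have hqz : (0 : ℤ) < q := by exact_mod_cast (by omega : 0 < q)
    obtain ⟨c, hc⟩ : ∃ c : ℤ, c = round ((q : ℝ) * α) := ⟨_, rfl⟩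
    have hcle : |(q : ℝ) * α - c| ≤ |(q : ℝ) * α - c0| := by rw [hc]; exact round_le _ _
    have hchalf : |(q : ℝ) * α - c| ≤ 1 / 2 := by rw [hc]; exact abs_sub_round _
    have hα0 : 0 ≤ α := by rw [hα]; positivity
    have hα1 : α ≤ 1 := by
      rw [hα, div_le_one hP0]; exact_mod_cast haP.le
    have hqα : (q : ℝ) * α ≤ q := by
      calc (q : ℝ) * α ≤ q * 1 := mul_le_mul_of_nonneg_left hα1 hq0.le
        _ = q := by ring
    have hqα0 : 0 ≤ (q : ℝ) * α := by positivity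
    rw [abs_le] at hchalf
    have hc1 : -1 ≤ c := by
      have : (-1 : ℝ) ≤ c := by linarith [hchalf.2]
      exact_mod_cast this
    have hc2 : c ≤ q + 1 := by
      have : (c : ℝ) ≤ q + 1 := by linarith [hchalf.1]
      exact_mod_cast this
    obtain ⟨i, hi⟩ : ∃ i : ℤ, i = (a : ℤ) - ((P : ℤ) * c) / (q : ℤ) := ⟨_, rfl⟩
    refine ⟨(q, c, i), fun _ => ⟨⟨hq, hc1, hc2⟩, by simp only; rw [hi]; ring, ?_⟩⟩
    have hqi : (q : ℝ) * |(i : ℝ)| ≤ P * |(q : ℝ) * α - c| + q := by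
      have e2 := Int.mul_ediv_add_emod ((P : ℤ) * c) (q : ℤ)
      have e3 : ((q : ℤ) * i : ℤ) = q * a - P * c + ((P : ℤ) * c) % (q : ℤ) := by
        rw [hi]; linarith
      have e4 : ((q : ℝ) * i) = q * a - P * c + ((((P : ℤ) * c) % (q : ℤ) : ℤ) : ℝ) := by
        exact_mod_cast e3
      have e5 : (0 : ℤ) ≤ ((P : ℤ) * c) % (q : ℤ) := Int.emod_nonneg _ hqz.ne'
      have e6 : ((P : ℤ) * c) % (q : ℤ) < q := Int.emod_lt_of_pos _ hqz
      have e5' : (0 : ℝ) ≤ ((((P : ℤ) * c) % (q : ℤ) : ℤ) : ℝ) := by exact_mod_cast e5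
      have e6' : ((((P : ℤ) * c) % (q : ℤ) : ℤ) : ℝ) ≤ q := by exact_mod_cast e6.le
      have e7 : (q : ℝ) * a - P * c = P * (q * α - c) := by
        rw [hα]; field_simp
      have e8 : (q : ℝ) * |(i : ℝ)| = |(q : ℝ) * i| := by rw [abs_mul, abs_of_pos hq0]
      rw [e8, e4, e7]
      refine (abs_add_le _ _).trans (add_le_add ?_ ?_)
      · rw [abs_mul, abs_of_pos hP0]
      · rw [abs_of_nonneg e5']; exact e6'
    have hwt : (wt (q, c, i) : ℝ) = q + q * |(i : ℝ)| := by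
      unfold wt
      push_cast
      have : ((i.natAbs : ℕ) : ℝ) = |(i : ℝ)| := by rw [Nat.cast_natAbs]; simp
      rw [this]; ring
    have hA0 : 0 ≤ u a ^ A := pow_nonneg (hu0 a) _
    have h3 : P * |(q : ℝ) * α - c| * u a ^ A ≤ R * C := by
      calc P * |(q : ℝ) * α - c| * u a ^ A ≤ P * |(q : ℝ) * α - c0| * u a ^ A := by gcongr
        _ = R * (|(q : ℝ) * α - c0| * u a ^ A * (X : ℝ) ^ k) := by rw [hPR]; ring
        _ ≤ R * C := mul_le_mul_of_nonneg_left h2 hR0.le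
    rw [hwt]
    calc u a ^ A * (q + q * |(i : ℝ)|) ≤ u a ^ A * (q + (P * |(q : ℝ) * α - c| + q)) := by gcongr
      _ = 2 * (q * u a ^ A) + P * |(q : ℝ) * α - c| * u a ^ A := by ring
      _ ≤ 2 * C + R * C := by linarith
      _ = (R + 2) * C := by ring
  choose tau htau using hex
  have hterm : ∀ a ∈ Sh, u a ^ s0 ≤ ((R + 2) * C) ^ 3 * (wt (tau a) : ℝ) ^ (-(9 / 4) : ℝ) := by
    intro a ha
    refine (pow_le_pow_of_le_one (hu0 a) (hu1 a) h3A).trans ?_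
    obtain ⟨⟨t1, _, _⟩, _, t3⟩ := htau a ha
    have hw := wt_pos (tau a) t1
    have hwR : (1 : ℝ) ≤ (wt (tau a) : ℝ) := by exact_mod_cast hw
    have hw0 : (0 : ℝ) < (wt (tau a) : ℝ) := by linarith
    have h3 : u a ^ A ≤ (R + 2) * C / (wt (tau a) : ℝ) := by
      rw [le_div_iff₀ hw0]; exact t3
    calc u a ^ (3 * A) = (u a ^ A) ^ 3 := by rw [← pow_mul, mul_comm]
      _ ≤ ((R + 2) * C / (wt (tau a) : ℝ)) ^ 3 := pow_le_pow_left₀ (pow_nonneg (hu0 a) _) h3 3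
      _ = ((R + 2) * C) ^ 3 * (wt (tau a) : ℝ) ^ (-3 : ℝ) := by
          rw [div_pow, Real.rpow_neg hw0.le]
          have : (wt (tau a) : ℝ) ^ (3 : ℝ) = (wt (tau a) : ℝ) ^ 3 := by
            exact_mod_cast Real.rpow_natCast (wt (tau a) : ℝ) 3
          rw [this]
          rfl
      _ ≤ ((R + 2) * C) ^ 3 * (wt (tau a) : ℝ) ^ (-(9 / 4) : ℝ) := by
          refine mul_le_mul_of_nonneg_left ?_ (by positivity)
          exact Real.rpow_le_rpow_of_exponent_le hwR (by norm_num)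
  have hinj : Set.InjOn tau (Sh : Set ℕ) := by
    intro a ha b hb hab
    rw [Finset.mem_coe] at ha hb
    have h1 := (htau a ha).2.1
    have h2 := (htau b hb).2.1
    rw [hab] at h1
    have : (a : ℤ) = b := h1.trans h2.symm
    exact_mod_cast this
  have h5 := hKs (Sh.image tau) (by
    intro τ hτ
    rw [Finset.mem_image] at hτ
    obtain ⟨a, ha, rfl⟩ := hτ
    exact (htau a ha).1)
  rw [Finset.sum_image hinj] at h5
  have h6 : ∑ a ∈ Sh, u a ^ s0 ≤ C ^ 3 * Ks * (R + 2) ^ 3 := by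
    refine (Finset.sum_le_sum hterm).trans ?_
    rw [← Finset.mul_sum]
    calc ((R + 2) * C) ^ 3 * ∑ a ∈ Sh, (wt (tau a) : ℝ) ^ (-(9 / 4) : ℝ)
        ≤ ((R + 2) * C) ^ 3 * Ks := mul_le_mul_of_nonneg_left h5 (by positivity)
      _ = C ^ 3 * Ks * (R + 2) ^ 3 := by ring
  have e : (C ^ 3 * Ks + C * Cm) * ((R : ℝ) + 2) ^ 3 = C * Cm * (R + 2) ^ 3 + C ^ 3 * Ks * (R + 2) ^ 3 := by ring
  rw [e]
  exact add_le_add hdeep h6

end Pool.Agent.helper132_quad
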